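import Pool.Agent.Q203.CEA.Defs
import Pool.Agent.Helper446.Comp

set_option autoImplicit false

open Nat.Partrec (Code)
open Pool.Agent.Helper446

namespace Pool.Agent.Q203.CEA

/-- stage approximations -/
def Ws (e s x : ℕ) : Bool := (Code.evaln s (Denumerable.ofNat Code e) x).isSome

theorem Ws_comp : Computable fun p : (ℕ × ℕ) × ℕ => Ws p.1.1 p.1.2 p.2 := by
  have h1 : Computable fun x : (ℕ × Code) × ℕ => (Code.evaln x.1.1 x.1.2 x.2) :=
    Code.primrec_evaln.to_comp
  have h2 : Computable fun p : (ℕ × ℕ) × ℕ => Denumerable.ofNat Code p.1.1 :=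
    (Computable.ofNat Code).comp (by fun_prop)
  have h3 : Computable fun p : (ℕ × ℕ) × ℕ =>
      Code.evaln p.1.2 (Denumerable.ofNat Code p.1.1) p.2 :=
    h1.comp (((by fun_prop : Computable fun p : (ℕ × ℕ) × ℕ => p.1.2).pair h2).pair
      (by fun_prop))
  exact RE.cisSome h3

theorem Ws_mono {e s t x : ℕ} (hst : s ≤ t) (h : Ws e s x = true) : Ws e t x = true := by
  unfold Ws at *
  obtain ⟨y, hy⟩ := Option.isSome_iff_exists.1 h
  have := Code.evaln_mono hst (Option.mem_def.2 hy)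
  rw [Option.mem_def] at this
  rw [this]; rfl

theorem mem_W_iff (e x : ℕ) : x ∈ W e ↔ ∃ s, Ws e s x = true := by
  unfold W Ws
  rw [Set.mem_ofPred_eq, Part.dom_iff_mem]
  constructor
  · rintro ⟨y, hy⟩
    obtain ⟨k, hk⟩ := Code.evaln_complete.1 hy
    refine ⟨k, ?_⟩
    rw [Option.mem_def] at hk
    rw [hk]; rfl
  · rintro ⟨k, hk⟩
    obtain ⟨y, hy⟩ := Option.isSome_iff_exists.1 hk
    exact ⟨y, Code.evaln_complete.2 ⟨k, hy⟩⟩

theorem re_W : REPred fun p : ℕ × ℕ => p.2 ∈ W p.1 := by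
  have h : REPred fun p : ℕ × ℕ => ∃ s, Ws p.1 s p.2 = true := by
    refine RE.exN (p := fun (p : ℕ × ℕ) s => Ws p.1 s p.2 = true) (RE.of_bool ?_)
    exact Ws_comp.comp (f := fun p : (ℕ × ℕ) × ℕ => Ws p.1.1 p.1.2 p.2)
      (g := fun x : (ℕ × ℕ) × ℕ => ((x.1.1, x.2), x.1.2)) (by fun_prop)
  exact h.of_eq fun p => (mem_W_iff p.1 p.2).symm

theorem re_mem_W {α : Type} [Primcodable α] {f g : α → ℕ} (hf : Computable f)
    (hg : Computable g) : REPred fun a => g a ∈ W (f a) :=
  RE.comp (p := fun p : ℕ × ℕ => p.2 ∈ W p.1) re_W (hf.pair hg)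

/-- the s-m-n theorem -/
theorem smn {P : ℕ → ℕ → Prop} (hP : REPred fun p : ℕ × ℕ => P p.1 p.2) :
    ∃ f : ℕ → ℕ, Computable f ∧ ∀ e x, x ∈ W (f e) ↔ P e x := by
  have h1 : Partrec fun p : ℕ × ℕ => (Part.assert (P p.1 p.2) fun _ => Part.some ()).map
      fun _ => (0 : ℕ) := Partrec.map hP (Computable.const 0).to₂
  have h2 : Partrec fun n : ℕ => (Part.assert (P n.unpair.1 n.unpair.2) fun _ => Part.some ()).map
      fun _ => (0 : ℕ) := h1.comp (g := fun n : ℕ => n.unpair) Computable.unpair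
  obtain ⟨c, hc⟩ := Code.exists_code.1 (Partrec.nat_iff.1 h2)
  refine ⟨fun e => Encodable.encode (Code.curry c e), ?_, ?_⟩
  · exact Computable.encode.comp ((Code.primrec₂_curry.comp (Primrec.const c) Primrec.id).to_comp)
  · intro e x
    unfold W
    rw [Set.mem_ofPred_eq, Denumerable.ofNat_encode, Code.eval_curry, hc]
    have hpe : P (Nat.unpair (Nat.pair e x)).1 (Nat.unpair (Nat.pair e x)).2 ↔ P e x := by
      rw [Nat.unpair_pair]
    simp only [Part.map_Dom]
    constructor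
    · rintro ⟨h, -⟩; exact hpe.1 h
    · intro h; exact ⟨hpe.2 h, trivial⟩

theorem exists_index {S : Set ℕ} (hS : REPred fun x : ℕ => x ∈ S) : ∃ e, W e = S := by
  obtain ⟨f, -, hf⟩ := smn (P := fun _ x => x ∈ S) (RE.comp (p := fun x : ℕ => x ∈ S) hS
    (f := fun p : ℕ × ℕ => p.2) (by fun_prop))
  refine ⟨f 0, ?_⟩
  ext x
  exact hf 0 x

theorem CRed.trans {E F G : ℕ → ℕ → Prop} (h : CRed E F) (h' : CRed F G) : CRed E G := by
  obtain ⟨f, hf, hf'⟩ := h
  obtain ⟨g, hg, hg'⟩ := h'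
  exact ⟨fun x => g (f x), hg.comp hf, fun x y => by rw [hf', hg']⟩

/-- the relation of agreeing above `a`, up to stage information `b = ⟨z, s⟩` and witness `c` -/
def agr (e i a b c : ℕ) : Bool :=
  (decide (b.unpair.1 < a)) || ((!(Ws e b.unpair.2 b.unpair.1) || Ws i c b.unpair.1) &&
    (!(Ws i b.unpair.2 b.unpair.1) || Ws e c b.unpair.1))

theorem agr_comp : Computable fun p : (ℕ × ℕ) × ℕ × ℕ × ℕ =>
    agr p.1.1 p.1.2 p.2.1 p.2.2.1 p.2.2.2 := by
  have hW : ∀ {f g h : (ℕ × ℕ) × ℕ × ℕ × ℕ → ℕ}, Computable f → Computable g → Computable h →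
      Computable fun p => Ws (f p) (g p) (h p) := by
    intro f g h hf hg hh
    exact Ws_comp.comp (g := fun p => ((f p, g p), h p)) ((hf.pair hg).pair hh)
  have hu1 : Computable fun p : (ℕ × ℕ) × ℕ × ℕ × ℕ => p.2.2.1.unpair.1 := by fun_prop
  have hu2 : Computable fun p : (ℕ × ℕ) × ℕ × ℕ × ℕ => p.2.2.1.unpair.2 := by fun_prop
  have h1 : Computable fun p : (ℕ × ℕ) × ℕ × ℕ × ℕ => decide (p.2.2.1.unpair.1 < p.2.1) :=
    RE.cdecide (RE.cp_lt hu1 (by fun_prop))
  have h2 := hW (f := fun p => p.1.1) (by fun_prop) hu2 hu1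
  have h3 := hW (f := fun p => p.1.2) (g := fun p => p.2.2.2) (by fun_prop) (by fun_prop) hu1
  have h4 := hW (f := fun p => p.1.2) (by fun_prop) hu2 hu1
  have h5 := hW (f := fun p => p.1.1) (g := fun p => p.2.2.2) (by fun_prop) (by fun_prop) hu1
  exact RE.cor h1 (RE.cand (RE.cor (RE.cnot h2) h3) (RE.cor (RE.cnot h4) h5))

theorem agr_iff (e i a : ℕ) : (∀ b, ∃ c, agr e i a b c = true) ↔
    ∀ z, a ≤ z → (z ∈ W e ↔ z ∈ W i) := by
  constructor
  · intro h z hz
    constructor
    · intro hze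
      obtain ⟨s, hs⟩ := (mem_W_iff e z).1 hze
      obtain ⟨c, hc⟩ := h (Nat.pair z s)
      simp only [agr, Nat.unpair_pair, Bool.or_eq_true, decide_eq_true_eq, Bool.and_eq_true,
        Bool.not_eq_true'] at hc
      rcases hc with hc | ⟨hc | hc, -⟩
      · omega
      · rw [hs] at hc; exact absurd hc (by decide)
      · exact (mem_W_iff i z).2 ⟨c, hc⟩
    · intro hze
      obtain ⟨s, hs⟩ := (mem_W_iff i z).1 hze
      obtain ⟨c, hc⟩ := h (Nat.pair z s)
      simp only [agr, Nat.unpair_pair, Bool.or_eq_true, decide_eq_true_eq, Bool.and_eq_true,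
        Bool.not_eq_true'] at hc
      rcases hc with hc | ⟨-, hc | hc⟩
      · omega
      · rw [hs] at hc; exact absurd hc (by decide)
      · exact (mem_W_iff e z).2 ⟨c, hc⟩
  · intro h b
    by_cases hb : b.unpair.1 < a
    · exact ⟨0, by simp [agr, hb]⟩
    · have hz := h b.unpair.1 (not_lt.1 hb)
      by_cases h1 : b.unpair.1 ∈ W e
      · have h2 := hz.1 h1
        obtain ⟨s, hs⟩ := (mem_W_iff _ _).1 h1
        obtain ⟨t, ht⟩ := (mem_W_iff _ _).1 h2
        refine ⟨max s t, ?_⟩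
        have hs' := Ws_mono (le_max_left s t) hs
        have ht' := Ws_mono (le_max_right s t) ht
        simp [agr, hs', ht']
      · have h2 : b.unpair.1 ∉ W i := fun h3 => h1 (hz.2 h3)
        have h3 : Ws e b.unpair.2 b.unpair.1 = false := by
          by_contra hcon
          exact h1 ((mem_W_iff _ _).2 ⟨_, by simpa using hcon⟩)
        have h4 : Ws i b.unpair.2 b.unpair.1 = false := by
          by_contra hcon
          exact h2 ((mem_W_iff _ _).2 ⟨_, by simpa using hcon⟩)
        exact ⟨0, by simp [agr, h3, h4]⟩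

theorem sigma3_eqCE : Sigma3 eqCE := by
  refine ⟨fun p => agr p.1.1 p.1.2 0 p.2.2.1 p.2.2.2, ?_, ?_⟩
  · exact agr_comp.comp (g := fun p : (ℕ × ℕ) × ℕ × ℕ × ℕ => (p.1, 0, p.2.2.1, p.2.2.2))
      (by fun_prop)
  · intro x y
    have h := agr_iff x y 0
    constructor
    · intro hxy
      exact ⟨0, h.2 fun z _ => by rw [eqCE] at hxy; rw [hxy]⟩
    · rintro ⟨_, ha⟩
      ext z
      exact h.1 ha z (Nat.zero_le z)

theorem sigma3_E0CE : Sigma3 E0CE := by
  refine ⟨fun p => agr p.1.1 p.1.2 p.2.1 p.2.2.1 p.2.2.2, agr_comp, ?_⟩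
  intro x y
  constructor
  · intro hxy
    obtain ⟨a, ha⟩ := hxy.bddAbove
    refine ⟨a + 1, (agr_iff x y (a + 1)).2 fun z hz => ?_⟩
    by_contra hcon
    have hmem : z ∈ symmDiff (W x) (W y) := by
      rw [Set.mem_symmDiff]
      tauto
    have := ha hmem
    omega
  · rintro ⟨a, ha⟩
    have h := (agr_iff x y a).1 ha
    refine (Set.finite_Iio a).subset ?_
    intro z hz
    rw [Set.mem_Iio]
    by_contra hcon
    have := h z (not_lt.1 hcon)
    rw [Set.mem_symmDiff] at hz
    tauto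

theorem equivalence_E0CE : Equivalence E0CE := by
  refine ⟨fun x => ?_, ?_, ?_⟩
  · unfold E0CE
    rw [symmDiff_self]
    exact Set.finite_empty
  · intro x y h
    unfold E0CE at *
    rw [symmDiff_comm]
    exact h
  · intro x y z h h'
    unfold E0CE at *
    exact (h.union h').subset (symmDiff_triangle _ _ _)

theorem eqCE_le_E0CE : CRed eqCE E0CE := by
  obtain ⟨f, hf, hf'⟩ := smn (P := fun e x => x.unpair.1 ∈ W e) (re_mem_W (by fun_prop)
    (by fun_prop))
  refine ⟨f, hf, fun x y => ?_⟩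
  constructor
  · intro h
    unfold E0CE
    have : W (f x) = W (f y) := by
      ext z
      rw [hf', hf', h]
    rw [this, symmDiff_self]
    exact Set.finite_empty
  · intro h
    ext z
    by_contra hcon
    unfold E0CE at h
    refine Set.infinite_of_injective_forall_mem (f := fun k => Nat.pair z k) ?_ ?_ h
    · intro k k' hkk
      exact (Nat.pair_eq_pair.1 hkk).2
    · intro k
      rw [Set.mem_symmDiff, hf', hf']
      simp only [Nat.unpair_pair]
      tauto

/-- equality of c.e. sets up to finite differences does not reduce to equality -/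
theorem not_E0CE_le_eqCE : ¬ CRed E0CE eqCE := by
  rintro ⟨h, hh, hred⟩
  obtain ⟨c0, hc0⟩ := exists_index (S := ∅) (by
    simpa using RE.const (α := ℕ) False)
  -- `W (g x)` is infinite iff all `⟨x, m⟩` are in `W x`
  obtain ⟨g, hg, hg'⟩ := smn (P := fun x m => ∀ m' < m + 1, Nat.pair x m' ∈ W x) (by
    refine RE.all_lt (p := fun (p : ℕ × ℕ) m' => Nat.pair p.1 m' ∈ W p.1) ?_ (by fun_prop)
    exact re_mem_W (by fun_prop) (by fun_prop))
  have hginf : ∀ x, (W (g x)).Finite ↔ ¬ ∀ m, Nat.pair x m ∈ W x := by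
    intro x
    constructor
    · intro hfin hall
      have : W (g x) = Set.univ := by
        ext m
        rw [hg']
        simp [hall]
      rw [this] at hfin
      exact Set.infinite_univ hfin
    · intro hnot
      push Not at hnot
      obtain ⟨m, hm⟩ := hnot
      refine (Set.finite_Iio m).subset fun z hz => ?_
      rw [hg'] at hz
      rw [Set.mem_Iio]
      by_contra hcon
      exact hm (hz m (by omega))
  -- the diagonal index
  obtain ⟨e0, he0⟩ := exists_index (S := {p | ∃ c, agr (h (g p.unpair.1)) (h c0) 0 p.unpair.2 c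
      = true}) (by
    refine RE.exN (p := fun (p : ℕ) c => agr (h (g p.unpair.1)) (h c0) 0 p.unpair.2 c = true)
      (RE.of_bool ?_)
    refine agr_comp.comp (g := fun p : ℕ × ℕ => ((h (g p.1.unpair.1), h c0), 0, p.1.unpair.2, p.2))
      ?_
    have h1 : Computable fun p : ℕ × ℕ => h (g p.1.unpair.1) :=
      hh.comp (hg.comp (by fun_prop))
    exact (h1.pair (by fun_prop)).pair (by fun_prop))
  have key : ∀ x, (∀ m, Nat.pair x m ∈ W e0) ↔ ¬ ∀ m, Nat.pair x m ∈ W x := by
    intro x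
    have h1 : (∀ m, Nat.pair x m ∈ W e0) ↔ ∀ b, ∃ c, agr (h (g x)) (h c0) 0 b c = true := by
      rw [he0]
      simp only [Set.mem_ofPred_eq, Nat.unpair_pair]
    rw [h1, agr_iff, ← hginf]
    have h2 : (∀ z, 0 ≤ z → (z ∈ W (h (g x)) ↔ z ∈ W (h c0))) ↔ eqCE (h (g x)) (h c0) := by
      constructor
      · intro h3
        ext z
        exact h3 z (Nat.zero_le z)
      · intro h3 z _
        rw [eqCE] at h3
        rw [h3]
    rw [h2, ← hred]
    unfold E0CE
    have h4 : symmDiff (W (g x)) (W c0) = W (g x) := by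
      rw [hc0]
      ext z
      simp [Set.mem_symmDiff]
    rw [h4]
  exact (iff_not_self (key e0))

/-- relations reducible to equality of c.e. sets are strictly below every complete relation -/
theorem below_complete {I : ℕ → ℕ → Prop} (hI : CRed I eqCE) {E : ℕ → ℕ → Prop}
    (hE : Sigma3Complete E) : CRed I E ∧ ¬ CRed E I := by
  have heq : Equivalence eqCE := ⟨fun _ => rfl, fun h => Eq.symm h, fun h h' => Eq.trans h h'⟩
  refine ⟨hI.trans (hE.2.2 eqCE heq sigma3_eqCE), fun h => ?_⟩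
  exact not_E0CE_le_eqCE (((hE.2.2 E0CE equivalence_E0CE sigma3_E0CE).trans h).trans hI)

theorem not_complete {I : ℕ → ℕ → Prop} (hI : CRed I eqCE) : ¬ Sigma3Complete I := by
  intro h
  exact (below_complete hI h).2 ⟨id, Computable.id, fun _ _ => Iff.rfl⟩

end Pool.Agent.Q203.CEA
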