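import Pool.Agent.Q203.CEA.Base
import Pool.Agent.Helper806.RD.TG

set_option autoImplicit false

open Nat.Partrec (Code)
open Pool.Agent.Helper446

namespace Pool.Agent.Q203.CEA

section

variable (N : ℕ → Bool) (hN : Computable N)

/-- the signature with constants `c_i`, `N i = true` -/
def cSig : Signature := ⟨N, fun _ => 0, hN, Computable.const 0⟩

/-- the variety of sets with constants -/
def cVar : Variety := ⟨cSig N hN, ∅, (RE.const (α := ℕ) False).of_eq fun m => by simp⟩

variable {N} {V : Type}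

/-- the constant symbols -/
def con (i : ℕ) (hi : N i = true) : Term (cVar N hN).sig V :=
  Term.app ⟨i, hi⟩ (fun j => Fin.elim0 j)

theorem term_cases (t : Term (cVar N hN).sig V) :
    (∃ v, t = Term.var v) ∨ ∃ i hi, t = con hN i hi := by
  rcases t with v | ⟨⟨i, hi⟩, ts⟩
  · exact Or.inl ⟨v, rfl⟩
  · refine Or.inr ⟨i, hi, ?_⟩
    unfold con
    congr 1
    funext j
    exact Fin.elim0 j

theorem code_con [Encodable V] (i : ℕ) (hi : N i = true) :
    (con hN i hi : Term (cVar N hN).sig V).code = Nat.pair (i + 1) 0 := rfl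

theorem code_var [Encodable V] (v : V) :
    (Term.var v : Term (cVar N hN).sig V).code = Nat.pair 0 (Encodable.encode v) := rfl

theorem code_inj [Encodable V] {s t : Term (cVar N hN).sig V} (h : s.code = t.code) : s = t := by
  rcases term_cases hN s with ⟨v, rfl⟩ | ⟨i, hi, rfl⟩ <;>
    rcases term_cases hN t with ⟨w, rfl⟩ | ⟨j, hj, rfl⟩
  · rw [code_var, code_var, Nat.pair_eq_pair] at h
    rw [Encodable.encode_injective h.2]
  · rw [code_var, code_con, Nat.pair_eq_pair] at h
    omega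
  · rw [code_var, code_con, Nat.pair_eq_pair] at h
    omega
  · rw [code_con, code_con, Nat.pair_eq_pair] at h
    have : i = j := by omega
    subst this
    rfl

theorem eqCode_inj [Encodable V] {s t s' t' : Term (cVar N hN).sig V}
    (h : eqCode s t = eqCode s' t') : s = s' ∧ t = t' := by
  rw [eqCode, eqCode, Nat.pair_eq_pair] at h
  exact ⟨code_inj hN h.1, code_inj hN h.2⟩

theorem cong_respect [Encodable V] {S : Set ℕ} {β : Type*} (f : Term (cVar N hN).sig V → β)
    (h : ∀ s t, eqCode s t ∈ S → f s = f t) {s t : Term (cVar N hN).sig V}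
    (hst : Cong (cVar N hN) V S s t) : f s = f t := by
  induction hst with
  | refl => rfl
  | symm _ ih => exact ih.symm
  | trans _ _ ih ih' => exact ih.trans ih'
  | app g ts ts' _ _ =>
    congr 2
    funext j
    exact Fin.elim0 j
  | law p hp => exact absurd hp (Set.notMem_empty p)
  | rel s t hm => exact h s t hm

theorem cong_mono [Encodable V] {S S' : Set ℕ} (h : S ⊆ S') {s t : Term (cVar N hN).sig V}
    (hst : Cong (cVar N hN) V S s t) : Cong (cVar N hN) V S' s t := by
  induction hst with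
  | refl => exact Cong.refl _
  | symm _ ih => exact ih.symm
  | trans _ _ ih ih' => exact ih.trans ih'
  | app g ts ts' _ ih => exact Cong.app g ts ts' ih
  | law p hp τ => exact Cong.law p hp τ
  | rel s t hm => exact Cong.rel s t (h hm)

/-- free classes -/
abbrev Free [Encodable V] (S : Set ℕ) : Type :=
  {q : Quotient (congSetoid (cVar N hN) V S) // ∀ i hi, q ≠ Quotient.mk _ (con hN i hi)}

instance finite_free [Encodable V] [Finite V] (S : Set ℕ) : Finite (Free (V := V) hN S) := by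
  have h : ∀ q : Free (V := V) hN S, ∃ v : V, q.1 = Quotient.mk _ (Term.var v) := by
    rintro ⟨q, hq⟩
    obtain ⟨t, rfl⟩ := Quotient.exists_rep q
    rcases term_cases hN t with ⟨v, rfl⟩ | ⟨i, hi, rfl⟩
    · exact ⟨v, rfl⟩
    · exact absurd rfl (hq i hi)
  choose g hg using h
  refine Finite.of_injective g fun p q hpq => ?_
  apply Subtype.ext
  rw [hg p, hg q, hpq]

theorem present_op [Encodable V] (S : Set ℕ) (i : ℕ) (hi : N i = true)
    (xs : Fin ((cVar N hN).sig.arity i) → (present (cVar N hN) V S).carrier) :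
    (present (cVar N hN) V S).op ⟨i, hi⟩ xs =
      Quotient.mk (congSetoid (cVar N hN) V S) (con hN i hi) := by
  unfold present con
  dsimp only
  congr 2
  funext j
  exact Fin.elim0 j

/-- classification of the finitely generated algebras of the variety -/
theorem algIso_iff {V' : Type} [Encodable V] [Encodable V'] [Finite V] [Finite V'] (S S' : Set ℕ) :
    AlgIso (present (cVar N hN) V S) (present (cVar N hN) V' S') ↔
      (∀ i hi j hj, Cong (cVar N hN) V S (con hN i hi) (con hN j hj) ↔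
        Cong (cVar N hN) V' S' (con hN i hi) (con hN j hj)) ∧
      Nat.card (Free (V := V) hN S) = Nat.card (Free (V := V') hN S') := by
  classical
  let s1 := congSetoid (cVar N hN) V S
  let s2 := congSetoid (cVar N hN) V' S'
  have hq1 : ∀ s t : Term (cVar N hN).sig V, Quotient.mk s1 s = Quotient.mk s1 t ↔
      Cong (cVar N hN) V S s t := fun s t => Quotient.eq (r := s1)
  have hq2 : ∀ s t : Term (cVar N hN).sig V', Quotient.mk s2 s = Quotient.mk s2 t ↔
      Cong (cVar N hN) V' S' s t := fun s t => Quotient.eq (r := s2)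
  constructor
  · rintro ⟨φ, hφ⟩
    have hcon : ∀ i hi, φ (Quotient.mk s1 (con hN i hi)) = Quotient.mk s2 (con hN i hi) := by
      intro i hi
      have := hφ ⟨i, hi⟩ (fun j => Fin.elim0 j)
      rw [present_op, present_op] at this
      exact this
    refine ⟨fun i hi j hj => ?_, ?_⟩
    · rw [← hq1, ← hq2, ← hcon, ← hcon]
      exact φ.injective.eq_iff.symm
    · refine Nat.card_congr ⟨fun q => ⟨φ q.1, fun i hi h => q.2 i hi ?_⟩,
        fun q => ⟨φ.symm q.1, fun i hi h => q.2 i hi ?_⟩, fun q => ?_, fun q => ?_⟩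
      · have h1 : φ q.1 = φ (Quotient.mk s1 (con hN i hi)) := by rw [hcon]; exact h
        exact φ.injective h1
      · rw [← φ.apply_symm_apply q.1]
        have h1 : φ.symm q.1 = Quotient.mk s1 (con hN i hi) := h
        rw [h1]
        exact hcon i hi
      · exact Subtype.ext (φ.symm_apply_apply _)
      · exact Subtype.ext (φ.apply_symm_apply _)
  · rintro ⟨h1, h2⟩
    obtain ⟨ψ⟩ : Nonempty (Free (V := V) hN S ≃ Free (V := V') hN S') := Finite.card_eq.1 h2
    let P1 : Quotient s1 → Prop := fun q => ∀ i hi, q ≠ Quotient.mk s1 (con hN i hi)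
    let P2 : Quotient s2 → Prop := fun q => ∀ i hi, q ≠ Quotient.mk s2 (con hN i hi)
    have hn1 : ∀ q : {q // ¬ P1 q}, ∃ i hi, q.1 = Quotient.mk s1 (con hN i hi) := by
      rintro ⟨q, hq⟩
      simp only [P1] at hq
      push Not at hq
      exact hq
    have hn2 : ∀ q : {q // ¬ P2 q}, ∃ i hi, q.1 = Quotient.mk s2 (con hN i hi) := by
      rintro ⟨q, hq⟩
      simp only [P2] at hq
      push Not at hq
      exact hq
    choose i1 hi1 e1 using hn1
    choose i2 hi2 e2 using hn2
    let χ : {q // ¬ P1 q} ≃ {q // ¬ P2 q} :=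
      { toFun := fun q => ⟨Quotient.mk s2 (con hN (i1 q) (hi1 q)), fun h => h _ _ rfl⟩
        invFun := fun q => ⟨Quotient.mk s1 (con hN (i2 q) (hi2 q)), fun h => h _ _ rfl⟩
        left_inv := fun q => by
          apply Subtype.ext
          conv_rhs => rw [e1 q]
          rw [hq1, h1, ← hq2]
          exact (e2 _).symm
        right_inv := fun q => by
          apply Subtype.ext
          conv_rhs => rw [e2 q]
          rw [hq2, ← h1, ← hq1]
          exact (e1 _).symm }
    let φ : Quotient s1 ≃ Quotient s2 :=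
      (Equiv.sumCompl P1).symm.trans ((Equiv.sumCongr ψ χ).trans (Equiv.sumCompl P2))
    have hφ : ∀ i hi, φ (Quotient.mk s1 (con hN i hi)) = Quotient.mk s2 (con hN i hi) := by
      intro i hi
      have hnot : ¬ P1 (Quotient.mk s1 (con hN i hi)) := fun h => h i hi rfl
      have h3 : φ (Quotient.mk s1 (con hN i hi)) = (χ ⟨_, hnot⟩).1 := by
        have h4 : (Equiv.sumCompl P1).symm (Quotient.mk s1 (con hN i hi)) =
            Sum.inr ⟨_, hnot⟩ := Equiv.sumCompl_symm_apply_of_neg hnot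
        change (Equiv.sumCompl P2) ((Equiv.sumCongr ψ χ)
          ((Equiv.sumCompl P1).symm (Quotient.mk s1 (con hN i hi)))) = _
        rw [h4]
        rfl
      rw [h3]
      change Quotient.mk s2 (con hN (i1 ⟨_, hnot⟩) (hi1 ⟨_, hnot⟩)) = _
      rw [hq2, ← h1, ← hq1]
      exact (e1 ⟨_, hnot⟩).symm
    refine ⟨(φ : (present (cVar N hN) V S).carrier ≃ (present (cVar N hN) V' S').carrier), ?_⟩
    rintro ⟨i, hi⟩ xs
    exact (congrArg φ (present_op hN S i hi xs)).trans
      ((hφ i hi).trans (present_op hN S' i hi _).symm)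

/-- few free classes iff the free generators are covered -/
theorem card_free_le_iff [Encodable V] [Finite V] (S : Set ℕ) (k : ℕ) :
    Nat.card (Free (V := V) hN S) ≤ k ↔ ∃ L : List V, L.length ≤ k ∧ ∀ v : V,
      (∃ i hi, Cong (cVar N hN) V S (Term.var v) (con hN i hi)) ∨
      ∃ w ∈ L, Cong (cVar N hN) V S (Term.var v) (Term.var w) := by
  classical
  let s1 := congSetoid (cVar N hN) V S
  have hq1 : ∀ s t : Term (cVar N hN).sig V, Quotient.mk s1 s = Quotient.mk s1 t ↔
      Cong (cVar N hN) V S s t := fun s t => Quotient.eq (r := s1)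
  have hrep : ∀ q : Free (V := V) hN S, ∃ v : V, q.1 = Quotient.mk _ (Term.var v) := by
    rintro ⟨q, hq⟩
    obtain ⟨t, rfl⟩ := Quotient.exists_rep q
    rcases term_cases hN t with ⟨v, rfl⟩ | ⟨i, hi, rfl⟩
    · exact ⟨v, rfl⟩
    · exact absurd rfl (hq i hi)
  choose g hg using hrep
  constructor
  · intro h
    have := Fintype.ofFinite (Free (V := V) hN S)
    refine ⟨(Finset.univ : Finset (Free (V := V) hN S)).toList.map g, ?_, fun v => ?_⟩
    · rw [List.length_map, Finset.length_toList, Finset.card_univ, ← Nat.card_eq_fintype_card]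
      exact h
    · by_cases hv : ∃ i hi, Cong (cVar N hN) V S (Term.var v) (con hN i hi)
      · exact Or.inl hv
      · right
        push Not at hv
        let q : Free (V := V) hN S := ⟨Quotient.mk s1 (Term.var v), fun i hi h' =>
          hv i hi ((hq1 _ _).1 h')⟩
        refine ⟨g q, List.mem_map.2 ⟨q, by simp, rfl⟩, ?_⟩
        rw [← hq1]
        exact hg q
  · rintro ⟨L, hL, hcov⟩
    -- the free classes inject into `L`
    have h1 : ∀ q : Free (V := V) hN S, ∃ w ∈ L, q.1 = Quotient.mk s1 (Term.var w) := by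
      intro q
      rcases hcov (g q) with ⟨i, hi, h2⟩ | ⟨w, hw, h2⟩
      · exfalso
        apply q.2 i hi
        rw [hg q]
        exact (hq1 _ _).2 h2
      · refine ⟨w, hw, ?_⟩
        rw [hg q]
        exact (hq1 _ _).2 h2
    choose k' hk' hk'2 using h1
    have hinj : Function.Injective (fun q : Free (V := V) hN S => (⟨k' q, by
        rw [List.mem_toFinset]; exact hk' q⟩ : {x // x ∈ L.toFinset})) := by
      intro p q hpq
      apply Subtype.ext
      have h3 : k' p = k' q := congrArg Subtype.val hpq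
      rw [hk'2 p, hk'2 q, h3]
    have h4 := Nat.card_le_card_of_injective _ hinj
    have h5 : Nat.card {x // x ∈ L.toFinset} = L.toFinset.card := by
      rw [Nat.card_eq_fintype_card, Fintype.card_coe]
    rw [h5] at h4
    exact (h4.trans L.toFinset_card_le).trans hL

/-- one step of the relation generated by an index, on codes -/
def St (N : ℕ → Bool) (p : ℕ) (a b : ℕ) : Prop :=
  ((a.unpair.1 = 0 ∧ a.unpair.2 < p.unpair.1) ∨
    (∃ i, a.unpair.1 = i + 1 ∧ N i = true ∧ a.unpair.2 = 0)) ∧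
  ((b.unpair.1 = 0 ∧ b.unpair.2 < p.unpair.1) ∨
    (∃ i, b.unpair.1 = i + 1 ∧ N i = true ∧ b.unpair.2 = 0)) ∧
  (Nat.pair a b ∈ W p.unpair.2 ∨ Nat.pair b a ∈ W p.unpair.2)

/-- provable equality on codes -/
def Dv (N : ℕ → Bool) (p : ℕ) (a b : ℕ) : Prop := a = b ∨ Relation.TransGen (St N p) a b

include hN in
theorem re_St : REPred fun x : ℕ × ℕ × ℕ => St N x.1 x.2.1 x.2.2 := by
  have hok : ∀ {f : ℕ × ℕ × ℕ → ℕ}, Computable f → REPred fun x : ℕ × ℕ × ℕ =>
      (((f x).unpair.1 = 0 ∧ (f x).unpair.2 < x.1.unpair.1) ∨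
      (∃ i, (f x).unpair.1 = i + 1 ∧ N i = true ∧ (f x).unpair.2 = 0)) := by
    intro f hf
    have h1 : Computable fun x => (f x).unpair.1 := by fun_prop
    have h2 : Computable fun x => (f x).unpair.2 := by fun_prop
    refine RE.or (RE.and (RE.eq h1 (Computable.const 0)) (RE.lt h2 (by fun_prop))) ?_
    refine RE.exN (p := fun (x : ℕ × ℕ × ℕ) i => (f x).unpair.1 = i + 1 ∧ N i = true ∧
      (f x).unpair.2 = 0) ?_
    refine RE.and (RE.eq (h1.comp Computable.fst) (Computable.succ.comp Computable.snd))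
      (RE.and (RE.of_bool (hN.comp Computable.snd)) (RE.eq (h2.comp Computable.fst)
        (Computable.const 0)))
  have ha : Computable fun x : ℕ × ℕ × ℕ => x.2.1 := by fun_prop
  have hb : Computable fun x : ℕ × ℕ × ℕ => x.2.2 := by fun_prop
  exact RE.and (hok ha) (RE.and (hok hb) (RE.or (re_mem_W (by fun_prop) (by fun_prop))
    (re_mem_W (by fun_prop) (by fun_prop))))

include hN in
theorem re_Dv : REPred fun x : ℕ × ℕ × ℕ => Dv N x.1 x.2.1 x.2.2 := by
  have hS := re_St hN
  refine RE.or (RE.eq (by fun_prop) (by fun_prop)) ?_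
  have h1 : REPred fun x : ℕ × ℕ × ℕ => ∃ l : List ℕ, (∀ i < l.length, ∃ a, l[i]? = some a ∧
      (St N x.1 x.2.1 a ∨ ∃ j < i, ∃ b, l[j]? = some b ∧ St N x.1 b a)) ∧ x.2.2 ∈ l := by
    refine RE.ex (p := fun (x : ℕ × ℕ × ℕ) (l : List ℕ) => (∀ i < l.length, ∃ a, l[i]? = some a ∧
      (St N x.1 x.2.1 a ∨ ∃ j < i, ∃ b, l[j]? = some b ∧ St N x.1 b a)) ∧ x.2.2 ∈ l) ?_
    refine RE.and ?_ (RE.mem_list (by fun_prop) (by fun_prop))
    refine RE.all_lt (p := fun (y : (ℕ × ℕ × ℕ) × List ℕ) i => ∃ a, y.2[i]? = some a ∧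
      (St N y.1.1 y.1.2.1 a ∨ ∃ j < i, ∃ b, y.2[j]? = some b ∧ St N y.1.1 b a)) ?_ (by fun_prop)
    refine RE.ex (p := fun (z : ((ℕ × ℕ × ℕ) × List ℕ) × ℕ) a => z.1.2[z.2]? = some a ∧
      (St N z.1.1.1 z.1.1.2.1 a ∨ ∃ j < z.2, ∃ b, z.1.2[j]? = some b ∧ St N z.1.1.1 b a)) ?_
    refine RE.and (RE.eq (by fun_prop) (by fun_prop)) (RE.or ?_ ?_)
    · exact RE.comp (f := fun y : (((ℕ × ℕ × ℕ) × List ℕ) × ℕ) × ℕ =>
        (y.1.1.1.1, y.1.1.1.2.1, y.2)) hS (by fun_prop)
    · have h2 : REPred fun y : (((ℕ × ℕ × ℕ) × List ℕ) × ℕ) × ℕ => ∃ j, j < y.1.2 ∧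
          ∃ b, y.1.1.2[j]? = some b ∧ St N y.1.1.1.1 b y.2 := by
        refine RE.ex (p := fun (y : (((ℕ × ℕ × ℕ) × List ℕ) × ℕ) × ℕ) j => j < y.1.2 ∧
          ∃ b, y.1.1.2[j]? = some b ∧ St N y.1.1.1.1 b y.2) ?_
        refine RE.and (RE.lt (by fun_prop) (by fun_prop)) ?_
        refine RE.ex (p := fun (w : ((((ℕ × ℕ × ℕ) × List ℕ) × ℕ) × ℕ) × ℕ) b =>
          w.1.1.1.2[w.2]? = some b ∧ St N w.1.1.1.1.1 b w.1.2) ?_
        refine RE.and (RE.eq (by fun_prop) (by fun_prop)) ?_
        exact RE.comp (f := fun y : (((((ℕ × ℕ × ℕ) × List ℕ) × ℕ) × ℕ) × ℕ) × ℕ =>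
          (y.1.1.1.1.1.1, y.2, y.1.1.2)) hS (by fun_prop)
      exact h2
  exact h1.of_eq fun x => (Helper806.RD.TG_cert (R := St N x.1) x.2.1 x.2.2).symm

theorem exists_term {n : ℕ} {a : ℕ} (h : (a.unpair.1 = 0 ∧ a.unpair.2 < n) ∨
    (∃ i, a.unpair.1 = i + 1 ∧ N i = true ∧ a.unpair.2 = 0)) :
    ∃ t : Term (cVar N hN).sig (Fin n), t.code = a := by
  rcases h with ⟨h1, h2⟩ | ⟨i, h1, h2, h3⟩
  · refine ⟨Term.var ⟨a.unpair.2, h2⟩, ?_⟩
    rw [code_var]
    have : Encodable.encode (⟨a.unpair.2, h2⟩ : Fin n) = a.unpair.2 := rfl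
    rw [this, ← h1, Nat.pair_unpair]
  · refine ⟨con hN i h2, ?_⟩
    rw [code_con, ← h1, ← h3, Nat.pair_unpair]

theorem ok_code {n : ℕ} (t : Term (cVar N hN).sig (Fin n)) :
    (t.code.unpair.1 = 0 ∧ t.code.unpair.2 < n) ∨
    (∃ i, t.code.unpair.1 = i + 1 ∧ N i = true ∧ t.code.unpair.2 = 0) := by
  rcases term_cases hN t with ⟨v, rfl⟩ | ⟨i, hi, rfl⟩
  · left
    rw [code_var, Nat.unpair_pair]
    exact ⟨rfl, v.2⟩
  · right
    rw [code_con, Nat.unpair_pair]
    exact ⟨i, rfl, hi, rfl⟩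

theorem cong_iff_Dv (n e : ℕ) (s t : Term (cVar N hN).sig (Fin n)) :
    Cong (cVar N hN) (Fin n) (W e) s t ↔ Dv N (Nat.pair n e) s.code t.code := by
  constructor
  · intro h
    induction h with
    | refl => exact Or.inl rfl
    | symm _ ih =>
      rcases ih with ih | ih
      · exact Or.inl ih.symm
      · right
        have hsym : ∀ a b, St N (Nat.pair n e) a b → St N (Nat.pair n e) b a := by
          rintro a b ⟨h1, h2, h3⟩
          exact ⟨h2, h1, h3.symm⟩
        have hsw : ∀ a b, Relation.TransGen (St N (Nat.pair n e)) a b →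
            Relation.TransGen (St N (Nat.pair n e)) b a := by
          intro a b hab
          induction hab with
          | single h => exact Relation.TransGen.single (hsym _ _ h)
          | tail _ h ih => exact Relation.TransGen.head (hsym _ _ h) ih
        exact hsw _ _ ih
    | trans _ _ ih ih' =>
      rcases ih with ih | ih
      · rw [ih]; exact ih'
      · rcases ih' with ih' | ih'
        · rw [← ih']; exact Or.inr ih
        · exact Or.inr (ih.trans ih')
    | app g ts ts' _ _ =>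
      left
      congr 2
      funext j
      exact Fin.elim0 j
    | law p hp => exact absurd hp (Set.notMem_empty p)
    | rel s t hm =>
      right
      refine Relation.TransGen.single ⟨?_, ?_, Or.inl ?_⟩
      · rw [Nat.unpair_pair]; exact ok_code hN s
      · rw [Nat.unpair_pair]; exact ok_code hN t
      · rw [Nat.unpair_pair]; exact hm
  · rintro (h | h)
    · rw [code_inj hN h]
      exact Cong.refl _
    · have key : ∀ a b, Relation.TransGen (St N (Nat.pair n e)) a b →
          ∀ s t : Term (cVar N hN).sig (Fin n), s.code = a → t.code = b →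
            Cong (cVar N hN) (Fin n) (W e) s t := by
        intro a b hab
        induction hab with
        | single h =>
          rintro s t rfl rfl
          obtain ⟨-, -, h3⟩ := h
          rw [Nat.unpair_pair] at h3
          rcases h3 with h3 | h3
          · exact Cong.rel s t h3
          · exact (Cong.rel t s h3).symm
        | tail _ h ih =>
          rintro s t rfl rfl
          obtain ⟨h1, -, h3⟩ := h
          rw [Nat.unpair_pair] at h1 h3
          obtain ⟨u, hu⟩ := exists_term hN h1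
          refine (ih s u rfl hu).trans ?_
          rw [← hu] at h3
          rcases h3 with h3 | h3
          · exact Cong.rel u t h3
          · exact (Cong.rel t u h3).symm
      exact key _ _ h s t rfl rfl

/-- the theory of an index, as a c.e. set -/
def Th (N : ℕ → Bool) (p x : ℕ) : Prop :=
  (∃ i j, x = 2 * Nat.pair i j ∧ N i = true ∧ N j = true ∧
    Dv N p (Nat.pair (i + 1) 0) (Nat.pair (j + 1) 0)) ∨
  (∃ k, x = 2 * k + 1 ∧ ∃ L : List ℕ, L.length ≤ k ∧ ∀ v < p.unpair.1,
    (∃ i, N i = true ∧ Dv N p (Nat.pair 0 v) (Nat.pair (i + 1) 0)) ∨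
      ∃ w ∈ L, w < p.unpair.1 ∧ Dv N p (Nat.pair 0 v) (Nat.pair 0 w))

include hN in
theorem re_Th : REPred fun x : ℕ × ℕ => Th N x.1 x.2 := by
  have hD := re_Dv hN
  have hDc : ∀ {α : Type} [Primcodable α] {f g h : α → ℕ}, Computable f → Computable g →
      Computable h → REPred fun a => Dv N (f a) (g a) (h a) := by
    intro α _ f g h hf hg hh
    exact RE.comp (f := fun a => (f a, g a, h a)) hD (hf.pair (hg.pair hh))
  refine RE.or ?_ ?_
  · refine RE.exN (p := fun (x : ℕ × ℕ) i => ∃ j, x.2 = 2 * Nat.pair i j ∧ N i = true ∧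
      N j = true ∧ Dv N x.1 (Nat.pair (i + 1) 0) (Nat.pair (j + 1) 0)) ?_
    refine RE.exN (p := fun (x : (ℕ × ℕ) × ℕ) j => x.1.2 = 2 * Nat.pair x.2 j ∧ N x.2 = true ∧
      N j = true ∧ Dv N x.1.1 (Nat.pair (x.2 + 1) 0) (Nat.pair (j + 1) 0)) ?_
    refine RE.and (RE.eq (by fun_prop) (by fun_prop)) (RE.and (RE.of_bool ?_)
      (RE.and (RE.of_bool ?_) (hDc ?_ ?_ ?_)))
    · exact hN.comp (by fun_prop)
    · exact hN.comp (by fun_prop)
    · fun_prop
    · fun_prop
    · fun_prop
  · refine RE.exN (p := fun (x : ℕ × ℕ) k => x.2 = 2 * k + 1 ∧ ∃ L : List ℕ, L.length ≤ k ∧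
      ∀ v < x.1.unpair.1, (∃ i, N i = true ∧ Dv N x.1 (Nat.pair 0 v) (Nat.pair (i + 1) 0)) ∨
      ∃ w ∈ L, w < x.1.unpair.1 ∧ Dv N x.1 (Nat.pair 0 v) (Nat.pair 0 w)) ?_
    refine RE.and (RE.eq (by fun_prop) (by fun_prop)) ?_
    refine RE.ex (p := fun (x : (ℕ × ℕ) × ℕ) (L : List ℕ) => L.length ≤ x.2 ∧
      ∀ v < x.1.1.unpair.1, (∃ i, N i = true ∧ Dv N x.1.1 (Nat.pair 0 v) (Nat.pair (i + 1) 0)) ∨
      ∃ w ∈ L, w < x.1.1.unpair.1 ∧ Dv N x.1.1 (Nat.pair 0 v) (Nat.pair 0 w)) ?_
    refine RE.and (RE.le (by fun_prop) (by fun_prop)) ?_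
    refine RE.all_lt (p := fun (x : ((ℕ × ℕ) × ℕ) × List ℕ) v =>
      (∃ i, N i = true ∧ Dv N x.1.1.1 (Nat.pair 0 v) (Nat.pair (i + 1) 0)) ∨
      ∃ w ∈ x.2, w < x.1.1.1.unpair.1 ∧ Dv N x.1.1.1 (Nat.pair 0 v) (Nat.pair 0 w)) ?_
      (by fun_prop)
    refine RE.or ?_ ?_
    · refine RE.exN (p := fun (x : (((ℕ × ℕ) × ℕ) × List ℕ) × ℕ) i => N i = true ∧
        Dv N x.1.1.1.1 (Nat.pair 0 x.2) (Nat.pair (i + 1) 0)) ?_
      refine RE.and (RE.of_bool ?_) (hDc ?_ ?_ ?_)
      · exact hN.comp (by fun_prop)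
      · fun_prop
      · fun_prop
      · fun_prop
    · refine RE.ex_mem (p := fun (x : (((ℕ × ℕ) × ℕ) × List ℕ) × ℕ) w =>
        w < x.1.1.1.1.unpair.1 ∧ Dv N x.1.1.1.1 (Nat.pair 0 x.2) (Nat.pair 0 w)) ?_ (by fun_prop)
      refine RE.and (RE.lt (by fun_prop) (by fun_prop)) (hDc ?_ ?_ ?_)
      · fun_prop
      · fun_prop
      · fun_prop

theorem Th_even (n e i j : ℕ) (hi : N i = true) (hj : N j = true) :
    Th N (Nat.pair n e) (2 * Nat.pair i j) ↔
      Cong (cVar N hN) (Fin n) (W e) (con hN i hi) (con hN j hj) := by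
  rw [cong_iff_Dv, code_con, code_con]
  constructor
  · rintro (⟨i', j', h1, h2, h3, h4⟩ | ⟨k, h1, -⟩)
    · have : Nat.pair i j = Nat.pair i' j' := by omega
      rw [Nat.pair_eq_pair] at this
      rw [this.1, this.2]
      exact h4
    · omega
  · intro h
    exact Or.inl ⟨i, j, rfl, hi, hj, h⟩

theorem Th_odd (n e k : ℕ) : Th N (Nat.pair n e) (2 * k + 1) ↔
    Nat.card (Free (V := Fin n) hN (W e)) ≤ k := by
  rw [card_free_le_iff]
  constructor
  · rintro (⟨i', j', h1, -⟩ | ⟨k', h1, L, hL, h2⟩)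
    · omega
    · have hk : k = k' := by omega
      subst hk
      rw [Nat.unpair_pair] at h2
      refine ⟨L.filterMap fun w => if h : w < n then some ⟨w, h⟩ else none,
        (List.length_filterMap_le _ _).trans hL, fun v => ?_⟩
      rcases h2 v.1 v.2 with ⟨i, hi, h3⟩ | ⟨w, hw, hwn, h3⟩
      · left
        refine ⟨i, hi, ?_⟩
        rw [cong_iff_Dv, code_con, code_var]
        exact h3
      · right
        refine ⟨⟨w, hwn⟩, ?_, ?_⟩
        · rw [List.mem_filterMap]
          exact ⟨w, hw, by simp [hwn]⟩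
        · rw [cong_iff_Dv, code_var, code_var]
          exact h3
  · rintro ⟨L, hL, h2⟩
    right
    refine ⟨k, rfl, L.map fun w => w.1, by rw [List.length_map]; exact hL, fun v hv => ?_⟩
    rw [Nat.unpair_pair] at hv
    rcases h2 ⟨v, hv⟩ with ⟨i, hi, h3⟩ | ⟨w, hw, h3⟩
    · left
      refine ⟨i, hi, ?_⟩
      rw [cong_iff_Dv, code_con, code_var] at h3
      exact h3
    · right
      refine ⟨w.1, List.mem_map.2 ⟨w, hw, rfl⟩, by rw [Nat.unpair_pair]; exact w.2, ?_⟩
      rw [cong_iff_Dv, code_var, code_var] at h3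
      exact h3

theorem iso_iff_Th (n e n' e' : ℕ) :
    AlgIso (present (cVar N hN) (Fin n) (W e)) (present (cVar N hN) (Fin n') (W e')) ↔
      ∀ x, Th N (Nat.pair n e) x ↔ Th N (Nat.pair n' e') x := by
  rw [algIso_iff]
  constructor
  · rintro ⟨h1, h2⟩ x
    rcases Nat.even_or_odd' x with ⟨m, rfl | rfl⟩
    · constructor
      · rintro (⟨i, j, h3, hi, hj, h4⟩ | ⟨k, h3, -⟩)
        · rw [h3, Th_even hN n' e' i j hi hj, ← h1, cong_iff_Dv, code_con, code_con]
          exact h4
        · omega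
      · rintro (⟨i, j, h3, hi, hj, h4⟩ | ⟨k, h3, -⟩)
        · rw [h3, Th_even hN n e i j hi hj, h1, cong_iff_Dv, code_con, code_con]
          exact h4
        · omega
    · rw [Th_odd hN, Th_odd hN, h2]
  · intro h
    refine ⟨fun i hi j hj => ?_, ?_⟩
    · rw [← Th_even hN, ← Th_even hN]
      exact h _
    · apply le_antisymm
      · rw [← Th_odd hN, h, Th_odd hN]
      · rw [← Th_odd hN, ← h, Th_odd hN]

end

end Pool.Agent.Q203.CEA
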