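import Mathlib

/-!
Definitions for computably enumerable algebras of a variety and the isomorphism relations of
classes of such algebras.
-/

set_option autoImplicit false

open Nat.Partrec (Code)

namespace Pool.Agent.Q203.CEA

/-- A signature: a decidable set of function symbols (natural numbers) with a computable arity
map. -/
structure Signature where
  /-- which natural numbers are function symbols -/
  isSymbol : ℕ → Bool
  /-- the arity map -/
  arity : ℕ → ℕ
  computable_isSymbol : Computable isSymbol
  computable_arity : Computable arity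

/-- The function symbols of a signature. -/
abbrev Signature.Symb (σ : Signature) : Type := {f : ℕ // σ.isSymbol f = true}

/-- Terms over the signature `σ` with variables (or generators) in `V`. -/
inductive Term (σ : Signature) (V : Type) : Type
  | var (v : V) : Term σ V
  | app (f : σ.Symb) (ts : Fin (σ.arity f.1) → Term σ V) : Term σ V

/-- Substitution. -/
def Term.subst {σ : Signature} {V V' : Type} (τ : V → Term σ V') : Term σ V → Term σ V'
  | Term.var v => τ v
  | Term.app f ts => Term.app f fun i => (ts i).subst τ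

/-- The Gödel number of a term: a variable `v` has number `⟨0, v⟩`, and `f(t_1, …, t_k)` has number
`⟨f + 1, code of the list of the numbers of the t_i⟩`. -/
def Term.code {σ : Signature} {V : Type} [Encodable V] : Term σ V → ℕ
  | Term.var v => Nat.pair 0 (Encodable.encode v)
  | Term.app f ts => Nat.pair (f.1 + 1) (Encodable.encode (List.ofFn fun i => (ts i).code))

/-- The code of a pair of terms. -/
def eqCode {σ : Signature} {V : Type} [Encodable V] (s t : Term σ V) : ℕ :=
  Nat.pair s.code t.code

/-- A variety: a signature and a computably enumerable set of equational laws (pairs of terms in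
the variables `x_0, x_1, …`). -/
structure Variety where
  /-- the signature -/
  sig : Signature
  /-- the laws -/
  laws : Set (Term sig ℕ × Term sig ℕ)
  ce_laws : REPred fun m : ℕ => ∃ p ∈ laws, m = eqCode p.1 p.2

/-- Algebras of a signature. -/
structure Alg (σ : Signature) where
  /-- the underlying set -/
  carrier : Type
  /-- the operations -/
  op : (f : σ.Symb) → (Fin (σ.arity f.1) → carrier) → carrier

/-- Evaluation of a term in an algebra. -/
def Term.eval {σ : Signature} {V : Type} (A : Alg σ) (v : V → A.carrier) : Term σ V → A.carrier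
  | Term.var x => v x
  | Term.app f ts => A.op f fun i => (ts i).eval A v

/-- Membership of an algebra in a variety. -/
def Variety.Mem (𝒱 : Variety) (A : Alg 𝒱.sig) : Prop :=
  ∀ p ∈ 𝒱.laws, ∀ v : ℕ → A.carrier, p.1.eval A v = p.2.eval A v

/-- A variety is nontrivial if it contains an algebra with at least two elements. -/
def Variety.Nontriv (𝒱 : Variety) : Prop :=
  ∃ A : Alg 𝒱.sig, 𝒱.Mem A ∧ ∃ a b : A.carrier, a ≠ b

/-- The least congruence on the term algebra over the generators `V` that contains all pairs with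
codes in `S` and all instances of the laws of the variety. -/
inductive Cong (𝒱 : Variety) (V : Type) [Encodable V] (S : Set ℕ) :
    Term 𝒱.sig V → Term 𝒱.sig V → Prop
  | refl (s : Term 𝒱.sig V) : Cong 𝒱 V S s s
  | symm {s t : Term 𝒱.sig V} : Cong 𝒱 V S s t → Cong 𝒱 V S t s
  | trans {s t u : Term 𝒱.sig V} : Cong 𝒱 V S s t → Cong 𝒱 V S t u → Cong 𝒱 V S s u
  | app (f : 𝒱.sig.Symb) (ts ts' : Fin (𝒱.sig.arity f.1) → Term 𝒱.sig V) :
      (∀ i, Cong 𝒱 V S (ts i) (ts' i)) → Cong 𝒱 V S (Term.app f ts) (Term.app f ts')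
  | law (p : Term 𝒱.sig ℕ × Term 𝒱.sig ℕ) (hp : p ∈ 𝒱.laws) (τ : ℕ → Term 𝒱.sig V) :
      Cong 𝒱 V S (p.1.subst τ) (p.2.subst τ)
  | rel (s t : Term 𝒱.sig V) (h : eqCode s t ∈ S) : Cong 𝒱 V S s t

/-- The congruence as a setoid. -/
def congSetoid (𝒱 : Variety) (V : Type) [Encodable V] (S : Set ℕ) : Setoid (Term 𝒱.sig V) :=
  ⟨Cong 𝒱 V S, ⟨Cong.refl, Cong.symm, Cong.trans⟩⟩

/-- The algebra of the variety presented by the generators `V` and the equations with codes in
`S`: the quotient of the term algebra by the congruence `Cong`. -/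
noncomputable def present (𝒱 : Variety) (V : Type) [Encodable V] (S : Set ℕ) : Alg 𝒱.sig where
  carrier := Quotient (congSetoid 𝒱 V S)
  op f q := Quotient.mk (congSetoid 𝒱 V S) (Term.app f fun i => (q i).out)

/-- Isomorphism of algebras. -/
def AlgIso {σ : Signature} (A B : Alg σ) : Prop :=
  ∃ φ : A.carrier ≃ B.carrier, ∀ (f : σ.Symb) (xs : Fin (σ.arity f.1) → A.carrier),
    φ (A.op f xs) = B.op f fun i => φ (xs i)

/-- The `e`-th computably enumerable set. -/
def W (e : ℕ) : Set ℕ := {x | ((Denumerable.ofNat Code e).eval x).Dom}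

/-- The isomorphism relation of the class of `n`-generated c.e. algebras of the variety. -/
def isoRel (𝒱 : Variety) (n : ℕ) (e i : ℕ) : Prop :=
  AlgIso (present 𝒱 (Fin n) (W e)) (present 𝒱 (Fin n) (W i))

/-- The isomorphism relation of the class of finitely generated c.e. algebras of the variety; the
index `⟨k, e⟩` presents an algebra with `k` generators. -/
def isoRelFG (𝒱 : Variety) (e i : ℕ) : Prop :=
  AlgIso (present 𝒱 (Fin e.unpair.1) (W e.unpair.2))
    (present 𝒱 (Fin i.unpair.1) (W i.unpair.2))

/-- Computable reducibility `E ≤_c F`. -/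
def CRed (E F : ℕ → ℕ → Prop) : Prop :=
  ∃ f : ℕ → ℕ, Computable f ∧ ∀ x y, E x y ↔ F (f x) (f y)

/-- Computable bi-reducibility `E ≡_c F`. -/
def CEquiv (E F : ℕ → ℕ → Prop) : Prop := CRed E F ∧ CRed F E

/-- Equality of c.e. sets. -/
def eqCE (e i : ℕ) : Prop := W e = W i

/-- Equality of c.e. sets up to finite differences. -/
def E0CE (e i : ℕ) : Prop := (symmDiff (W e) (W i)).Finite

/-- `Σ⁰₃` relations. -/
def Sigma3 (E : ℕ → ℕ → Prop) : Prop :=
  ∃ R : ((ℕ × ℕ) × ℕ × ℕ × ℕ) → Bool, Computable R ∧
    ∀ x y, E x y ↔ ∃ a, ∀ b, ∃ c, R ((x, y), a, b, c) = true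

/-- `Σ⁰₃`-complete equivalence relations. -/
def Sigma3Complete (E : ℕ → ℕ → Prop) : Prop :=
  Equivalence E ∧ Sigma3 E ∧ ∀ F : ℕ → ℕ → Prop, Equivalence F → Sigma3 F → CRed F E

/-- Congruences of an algebra. -/
def IsCongruence {σ : Signature} (A : Alg σ) (r : A.carrier → A.carrier → Prop) : Prop :=
  Equivalence r ∧ ∀ (f : σ.Symb) (xs ys : Fin (σ.arity f.1) → A.carrier),
    (∀ i, r (xs i) (ys i)) → r (A.op f xs) (A.op f ys)

/-- The ascending chain condition on the congruence lattice of an algebra. -/
def ACC {σ : Signature} (A : Alg σ) : Prop :=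
  ¬ ∃ θ : ℕ → A.carrier → A.carrier → Prop, (∀ k, IsCongruence A (θ k)) ∧
    ∀ k, (∀ a b, θ k a b → θ (k + 1) a b) ∧ ∃ a b, θ (k + 1) a b ∧ ¬ θ k a b

end Pool.Agent.Q203.CEA
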