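import Pool.Agent.Q203.CEA.Const

set_option autoImplicit false

open Nat.Partrec (Code)
open Pool.Agent.Helper446

namespace Pool.Agent.Q203.CEA

section gen

variable {N : ℕ → Bool} (hN : Computable N) {V : Type} [Encodable V]

/-- kernel sets -/
def Ker (f : Term (cVar N hN).sig V → ℕ) : Set ℕ :=
  {x | ∃ s t, f s = f t ∧ x = eqCode s t}

theorem cong_Ker (f : Term (cVar N hN).sig V → ℕ) (s t : Term (cVar N hN).sig V) :
    Cong (cVar N hN) V (Ker hN f) s t ↔ f s = f t := by
  constructor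
  · intro h
    refine cong_respect hN f ?_ h
    rintro s t ⟨s', t', h1, h2⟩
    obtain ⟨rfl, rfl⟩ := eqCode_inj hN h2
    exact h1
  · intro h
    exact Cong.rel _ _ ⟨s, t, h, rfl⟩

omit [Encodable V] in
theorem finite_term [Finite V] (hfin : Set.Finite {i | N i = true}) :
    Finite (Term (cVar N hN).sig V) := by
  have := hfin.to_subtype
  let F : V ⊕ {i | N i = true} → Term (cVar N hN).sig V := fun x => match x with
    | Sum.inl v => Term.var v
    | Sum.inr i => con hN i.1 i.2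
  refine Finite.of_surjective F ?_
  intro t
  rcases term_cases hN t with ⟨v, rfl⟩ | ⟨i, hi, rfl⟩
  · exact ⟨Sum.inl v, rfl⟩
  · exact ⟨Sum.inr ⟨i, hi⟩, rfl⟩

theorem exists_index_of_finite {S : Set ℕ} (hS : S.Finite) : ∃ e, W e = S := by
  apply exists_index
  have h := RE.mem_list (f := fun x : ℕ => x) (l := fun _ : ℕ => hS.toFinset.toList)
    Computable.id (Computable.const _)
  exact h.of_eq fun x => by simp

theorem finite_Ker [Finite V] (hfin : Set.Finite {i | N i = true})
    (f : Term (cVar N hN).sig V → ℕ) : (Ker hN f).Finite := by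
  have := finite_term (V := V) hN hfin
  refine (Set.finite_range fun p : Term (cVar N hN).sig V × Term (cVar N hN).sig V =>
    eqCode p.1 p.2).subset ?_
  rintro x ⟨s, t, -, rfl⟩
  exact ⟨(s, t), rfl⟩

/-- number of elements of the presented algebra -/
noncomputable def cQ (V : Type) [Encodable V] (S : Set ℕ) : ℕ :=
  Nat.card (Quotient (congSetoid (cVar N hN) V S))

theorem cQ_iso {S S' : Set ℕ} (h : AlgIso (present (cVar N hN) V S) (present (cVar N hN) V S')) :
    cQ hN V S = cQ hN V S' := by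
  obtain ⟨φ, -⟩ := h
  exact Nat.card_congr φ

theorem iso_of_cong {S S' : Set ℕ} (h : ∀ s t, Cong (cVar N hN) V S s t ↔
    Cong (cVar N hN) V S' s t) : AlgIso (present (cVar N hN) V S) (present (cVar N hN) V S') := by
  have h1 : congSetoid (cVar N hN) V S = congSetoid (cVar N hN) V S' := by
    ext s t
    exact h s t
  have h2 : present (cVar N hN) V S = present (cVar N hN) V S' := by
    unfold present
    rw [h1]
  rw [h2]
  exact ⟨Equiv.refl _, fun f xs => rfl⟩

theorem cQ_mono [Finite V] (hfin : Set.Finite {i | N i = true}) {S S' : Set ℕ}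
    (h : ∀ s t, Cong (cVar N hN) V S s t → Cong (cVar N hN) V S' s t) :
    cQ hN V S' < cQ hN V S ∨ ∀ s t, Cong (cVar N hN) V S s t ↔ Cong (cVar N hN) V S' s t := by
  have := finite_term (V := V) hN hfin
  let s1 := congSetoid (cVar N hN) V S
  let s2 := congSetoid (cVar N hN) V S'
  let F : Quotient s1 → Quotient s2 := Quotient.map' id h
  have hF : ∀ t, F (Quotient.mk s1 t) = Quotient.mk s2 t := fun t => rfl
  have hsurj : Function.Surjective F := by
    intro q
    obtain ⟨t, rfl⟩ := Quotient.exists_rep q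
    exact ⟨Quotient.mk s1 t, rfl⟩
  by_cases hinj : Function.Injective F
  · right
    intro s t
    refine ⟨h s t, fun hst => ?_⟩
    have h1 : F (Quotient.mk s1 s) = F (Quotient.mk s1 t) := by
      rw [hF, hF]
      exact Quotient.sound hst
    exact (Quotient.eq (r := s1)).1 (hinj h1)
  · left
    have hle : Nat.card (Quotient s2) ≤ Nat.card (Quotient s1) :=
      Nat.card_le_card_of_surjective F hsurj
    refine lt_of_le_of_ne hle fun heq => hinj ?_
    exact ((Nat.bijective_iff_surjective_and_card F).2 ⟨hsurj, heq.symm⟩).1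

theorem cQ_pos [Finite V] (hfin : Set.Finite {i | N i = true}) (v : V) (S : Set ℕ) :
    0 < cQ hN V S := by
  have := finite_term (V := V) hN hfin
  have : Nonempty (Quotient (congSetoid (cVar N hN) V S)) := ⟨Quotient.mk _ (Term.var v)⟩
  exact Nat.card_pos

end gen

/-- three constants -/
def N3 : ℕ → Bool := fun i => decide (i < 3)
theorem hN3 : Computable N3 := RE.cdecide (RE.cp_lt Computable.id (Computable.const 3))
theorem fin3 : Set.Finite {i | N3 i = true} := by
  refine (Set.finite_Iio 3).subset fun i hi => ?_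
  simpa [N3] using hi

/-- no constants -/
def N0 : ℕ → Bool := fun _ => false
theorem hN0 : Computable N0 := Computable.const false
theorem fin0 : Set.Finite {i | N0 i = true} := by
  have : {i | N0 i = true} = ∅ := by
    ext i
    simp [N0]
  rw [this]
  exact Set.finite_empty

/-- sets with three constants, and sets -/
def 𝒜 : Variety := cVar N3 hN3
/-- sets without structure -/
def ℬ : Variety := cVar N0 hN0

theorem iso_B (e i : ℕ) : isoRel ℬ 5 e i ↔ Nat.card (Free (V := Fin 5) hN0 (W e)) =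
    Nat.card (Free (V := Fin 5) hN0 (W i)) := by
  unfold isoRel
  rw [show ℬ = cVar N0 hN0 from rfl, algIso_iff hN0]
  constructor
  · exact fun h => h.2
  · intro h
    refine ⟨fun i hi => ?_, h⟩
    simp [N0] at hi

/-- the six patterns -/
def pat (k : Fin 6) : Fin 4 → ℕ :=
  match k with
  | 0 => ![0, 1, 2, 3]
  | 1 => ![0, 0, 2, 3]
  | 2 => ![0, 1, 0, 3]
  | 3 => ![0, 1, 1, 3]
  | 4 => ![0, 0, 0, 3]
  | 5 => ![0, 1, 2, 0]

theorem pat_key : ∀ k l : Fin 6, (pat k 0 = pat k 1 ↔ pat l 0 = pat l 1) →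
    (pat k 0 = pat k 2 ↔ pat l 0 = pat l 2) → (pat k 1 = pat k 2 ↔ pat l 1 = pat l 2) →
    ((pat k 3 ≠ pat k 0 ∧ pat k 3 ≠ pat k 1 ∧ pat k 3 ≠ pat k 2) ↔
    (pat l 3 ≠ pat l 0 ∧ pat l 3 ≠ pat l 1 ∧ pat l 3 ≠ pat l 2)) → k = l := by
  intro k l
  fin_cases k <;> fin_cases l <;> simp [pat]

/-- the function on terms given by a pattern -/
def pf (k : Fin 6) : Term (cVar N3 hN3).sig (Fin 1) → ℕ := fun t => match t with
  | Term.var _ => pat k 3
  | Term.app c _ => if c.1 = 0 then pat k 0 else if c.1 = 1 then pat k 1 else pat k 2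

theorem not_A_le_B : ¬ CRed (isoRel 𝒜 1) (isoRel ℬ 5) := by
  classical
  rintro ⟨h, -, hred⟩
  choose a ha using fun k : Fin 6 => exists_index_of_finite (finite_Ker hN3 fin3 (pf k))
  have hne : ∀ k l, isoRel 𝒜 1 (a k) (a l) → k = l := by
    intro k l hkl
    unfold isoRel at hkl
    rw [show 𝒜 = cVar N3 hN3 from rfl, algIso_iff hN3, ha, ha] at hkl
    obtain ⟨h1, h2⟩ := hkl
    simp only [cong_Ker] at h1
    have e01 := h1 0 rfl 1 rfl
    have e02 := h1 0 rfl 2 rfl
    have e12 := h1 1 rfl 2 rfl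
    -- the generator
    have hfree : ∀ m : Fin 6, 0 < Nat.card (Free (V := Fin 1) hN3 (Ker hN3 (pf m))) ↔
        (pat m 3 ≠ pat m 0 ∧ pat m 3 ≠ pat m 1 ∧ pat m 3 ≠ pat m 2) := by
      intro m
      rw [Nat.card_pos_iff]
      have hq : ∀ s t : Term (cVar N3 hN3).sig (Fin 1),
          Quotient.mk (congSetoid (cVar N3 hN3) (Fin 1) (Ker hN3 (pf m))) s =
          Quotient.mk (congSetoid (cVar N3 hN3) (Fin 1) (Ker hN3 (pf m))) t ↔ pf m s = pf m t := by
        intro s t
        rw [← cong_Ker hN3 (pf m)]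
        exact Quotient.eq (r := congSetoid (cVar N3 hN3) (Fin 1) (Ker hN3 (pf m)))
      constructor
      · rintro ⟨⟨q, hq'⟩, -⟩
        obtain ⟨t, rfl⟩ := Quotient.exists_rep q
        rcases term_cases hN3 t with ⟨v, rfl⟩ | ⟨i, hi, rfl⟩
        · refine ⟨fun h3 => hq' 0 rfl ((hq _ _).2 h3), fun h3 => hq' 1 rfl ((hq _ _).2 h3),
            fun h3 => hq' 2 rfl ((hq _ _).2 h3)⟩
        · exact absurd rfl (hq' i hi)
      · rintro ⟨h3, h4, h5⟩
        refine ⟨⟨⟨Quotient.mk _ (Term.var 0), fun i hi h6 => ?_⟩⟩, inferInstance⟩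
        rw [hq] at h6
        have hi3 : i < 3 := by simpa [N3] using hi
        have h7 : pat m 3 = if i = 0 then pat m 0 else if i = 1 then pat m 1 else pat m 2 := h6
        interval_cases i
        · exact h3 h7
        · exact h4 h7
        · exact h5 h7
    have h3 : (pat k 3 ≠ pat k 0 ∧ pat k 3 ≠ pat k 1 ∧ pat k 3 ≠ pat k 2) ↔
        (pat l 3 ≠ pat l 0 ∧ pat l 3 ≠ pat l 1 ∧ pat l 3 ≠ pat l 2) := by
      rw [← hfree, ← hfree, h2]
    have e01' : pat k 0 = pat k 1 ↔ pat l 0 = pat l 1 := e01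
    have e02' : pat k 0 = pat k 2 ↔ pat l 0 = pat l 2 := e02
    have e12' : pat k 1 = pat k 2 ↔ pat l 1 = pat l 2 := e12
    exact pat_key k l e01' e02' e12' h3
  -- pigeonhole
  have hbd : ∀ e, Nat.card (Free (V := Fin 5) hN0 (W e)) ≤ 5 ∧
      0 < Nat.card (Free (V := Fin 5) hN0 (W e)) := by
    intro e
    constructor
    · rw [card_free_le_iff]
      refine ⟨List.finRange 5, by simp, fun v => Or.inr ⟨v, List.mem_finRange v, Cong.refl _⟩⟩
    · rw [Nat.card_pos_iff]
      refine ⟨⟨⟨Quotient.mk _ (Term.var 0), fun i hi => ?_⟩⟩, inferInstance⟩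
      simp [N0] at hi
  let F : Fin 6 → Fin 5 := fun k => ⟨Nat.card (Free (V := Fin 5) hN0 (W (h (a k)))) - 1, by
    have := hbd (h (a k))
    omega⟩
  have hF : Function.Injective F := by
    intro k l hkl
    apply hne
    rw [hred, iso_B]
    have h1 := congrArg Fin.val hkl
    have h2 := hbd (h (a k))
    have h3 := hbd (h (a l))
    simp only [F] at h1
    omega
  have := Fintype.card_le_of_injective F hF
  simp at this

/-! ### The other direction -/

/-- the function merging the first generators -/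
def gf (k : ℕ) : Term (cVar N0 hN0).sig (Fin 5) → ℕ := fun t => match t with
  | Term.var v => max v.1 k
  | Term.app _ _ => 0

theorem W_D_mono {k l : ℕ} (h : k ≤ l) : Ker hN0 (gf k) ⊆ Ker hN0 (gf l) := by
  rintro x ⟨s, t, hst, rfl⟩
  refine ⟨s, t, ?_, rfl⟩
  rcases term_cases hN0 s with ⟨v, rfl⟩ | ⟨i, hi, rfl⟩
  · rcases term_cases hN0 t with ⟨w, rfl⟩ | ⟨i, hi, rfl⟩
    · have h1 : max v.1 k = max w.1 k := hst
      show max v.1 l = max w.1 l
      omega
    · simp [N0] at hi
  · simp [N0] at hi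

theorem cQ_D_lt {k : ℕ} (hk : k < 4) : cQ hN0 (Fin 5) (Ker hN0 (gf (k + 1))) <
    cQ hN0 (Fin 5) (Ker hN0 (gf k)) := by
  rcases cQ_mono hN0 fin0 (V := Fin 5) (S := Ker hN0 (gf k)) (S' := Ker hN0 (gf (k + 1)))
    (fun s t h => cong_mono hN0 (W_D_mono (Nat.le_succ k)) h) with h | h
  · exact h
  · exfalso
    have h1 := h (Term.var ⟨k, by omega⟩) (Term.var ⟨k + 1, by omega⟩)
    rw [cong_Ker, cong_Ker] at h1
    have h2 : max k k = max (k + 1) k := h1.2 (show max k (k + 1) = max (k + 1) (k + 1) by omega)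
    omega

theorem cQ_D_lt' {k l : ℕ} (hkl : k < l) (hl : l ≤ 4) : cQ hN0 (Fin 5) (Ker hN0 (gf l)) <
    cQ hN0 (Fin 5) (Ker hN0 (gf k)) := by
  induction l with
  | zero => omega
  | succ l ih =>
    rcases Nat.lt_or_ge k l with h | h
    · exact (cQ_D_lt (by omega)).trans (ih h (by omega))
    · have : k = l := by omega
      subst this
      exact cQ_D_lt (by omega)

/-- the codes of the sixteen equations between the four terms -/
theorem exists_EL : ∃ EL : List ℕ, ∀ s t : Term (cVar N3 hN3).sig (Fin 1), eqCode s t ∈ EL := by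
  have := finite_term (V := Fin 1) hN3 fin3
  have hf := Set.finite_range fun p : Term (cVar N3 hN3).sig (Fin 1) ×
    Term (cVar N3 hN3).sig (Fin 1) => eqCode p.1 p.2
  refine ⟨hf.toFinset.toList, fun s t => ?_⟩
  simp

theorem cong_inter (EL : List ℕ) (hEL : ∀ s t : Term (cVar N3 hN3).sig (Fin 1), eqCode s t ∈ EL)
    (S : Set ℕ) (s t : Term (cVar N3 hN3).sig (Fin 1)) :
    Cong (cVar N3 hN3) (Fin 1) S s t ↔ Cong (cVar N3 hN3) (Fin 1) {x | x ∈ EL ∧ x ∈ S} s t := by
  constructor
  · intro h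
    induction h with
    | refl => exact Cong.refl _
    | symm _ ih => exact ih.symm
    | trans _ _ ih ih' => exact ih.trans ih'
    | app g ts ts' _ ih => exact Cong.app g ts ts' ih
    | law p hp τ => exact Cong.law p hp τ
    | rel s t hm => exact Cong.rel s t ⟨hEL s t, hm⟩
  · exact cong_mono hN3 fun x hx => hx.2

theorem comp_bits (L : List ℕ) : Computable fun p : ℕ × ℕ => L.map fun d => Ws p.1 p.2 d := by
  induction L with
  | nil => exact Computable.const []
  | cons d L ih =>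
    have h1 : Computable fun p : ℕ × ℕ => Ws p.1 p.2 d :=
      Ws_comp.comp (g := fun p : ℕ × ℕ => (p, d)) (by fun_prop)
    exact RE.ccons h1 ih

/-- the set coded by a list of bits -/
def SB (EL : List ℕ) (b : List Bool) : Set ℕ :=
  {x | ∃ j : ℕ, EL[j]? = some x ∧ b[j]? = some true}

theorem SB_bits (EL : List ℕ) (v s : ℕ) :
    SB EL (EL.map fun d => Ws v s d) = {x | x ∈ EL ∧ x ∈ {x | Ws v s x = true}} := by
  ext x
  simp only [SB, Set.mem_ofPred_eq, List.getElem?_map, Option.map_eq_some_iff]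
  constructor
  · rintro ⟨j, hj, d, hd, hdt⟩
    rw [hj] at hd
    cases hd
    exact ⟨List.mem_of_getElem? hj, hdt⟩
  · rintro ⟨h1, h2⟩
    obtain ⟨j, hj⟩ := List.mem_iff_getElem?.1 h1
    exact ⟨j, hj, x, hj, h2⟩

theorem not_B_le_A : ¬ CRed (isoRel ℬ 5) (isoRel 𝒜 1) := by
  classical
  rintro ⟨h, hh, hred⟩
  obtain ⟨EL, hEL⟩ := exists_EL
  choose b hb using fun k : ℕ => exists_index_of_finite (finite_Ker hN0 fin0 (gf k))
  -- types
  let IsT : ℕ → Set ℕ → Prop := fun k S =>
    AlgIso (present (cVar N3 hN3) (Fin 1) S) (present (cVar N3 hN3) (Fin 1) (W (h (b k))))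
  have hAtrans : ∀ {A B C : Alg (cVar N3 hN3).sig}, AlgIso A B → AlgIso B C → AlgIso A C := by
    rintro A B C ⟨φ, hφ⟩ ⟨ψ, hψ⟩
    exact ⟨φ.trans ψ, fun f xs => by
      simp only [Equiv.trans_apply]
      rw [hφ, hψ]⟩
  have hAsymm : ∀ {A B : Alg (cVar N3 hN3).sig}, AlgIso A B → AlgIso B A := by
    rintro A B ⟨φ, hφ⟩
    refine ⟨φ.symm, fun f xs => ?_⟩
    apply φ.injective
    rw [φ.apply_symm_apply, hφ]
    simp
  have hTne : ∀ k l, k ≤ 4 → l ≤ 4 → ∀ S, IsT k S → IsT l S → k = l := by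
    intro k l hk hl S h1 h2
    have h3 : isoRel ℬ 5 (b k) (b l) := by
      rw [hred]
      exact hAtrans (hAsymm h1) h2
    have h4 : cQ hN0 (Fin 5) (Ker hN0 (gf k)) = cQ hN0 (Fin 5) (Ker hN0 (gf l)) := by
      unfold isoRel at h3
      rw [hb, hb] at h3
      exact cQ_iso hN0 h3
    rcases lt_trichotomy k l with h5 | h5 | h5
    · have := cQ_D_lt' h5 hl
      omega
    · exact h5
    · have := cQ_D_lt' h5 hk
      omega
  -- the finite table of good patterns
  obtain ⟨G, hG⟩ : ∃ G : List (ℕ × List Bool), ∀ k v s, ((k, EL.map fun d => Ws v s d) ∈ G ↔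
      k < 4 ∧ IsT k {x | Ws v s x = true}) := by
    have hfin : {p : ℕ × List Bool | p.1 < 4 ∧ p.2.length = EL.length ∧ IsT p.1 (SB EL p.2)}.Finite := by
      refine ((Set.finite_Iio 4).prod (List.finite_length_eq Bool EL.length)).subset ?_
      rintro ⟨k, l⟩ ⟨h1, h2, -⟩
      exact ⟨h1, h2⟩
    refine ⟨hfin.toFinset.toList, fun k v s => ?_⟩
    rw [Finset.mem_toList, Set.Finite.mem_toFinset]
    simp only [Set.mem_ofPred_eq, List.length_map, true_and]
    refine and_congr_right fun _ => ?_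
    rw [SB_bits]
    have h1 := iso_of_cong hN3 (cong_inter EL hEL {x | Ws v s x = true})
    exact ⟨fun h2 => hAtrans h1 h2, fun h2 => hAtrans (hAsymm h1) h2⟩
  -- the diagonal construction
  let step : ℕ → ℕ → ℕ → ℕ := fun x s y =>
    (Code.evaln s (Denumerable.ofNat Code x) x).elim y
      (fun v => if (y, EL.map fun d => Ws v s d) ∈ G then y + 1 else y)
  let g : ℕ → ℕ → ℕ := fun x s => Nat.rec 0 (fun s y => step x s y) s
  have hg0 : ∀ x, g x 0 = 0 := fun x => rfl
  have hgs : ∀ x s, g x (s + 1) = step x s (g x s) := fun x s => rfl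
  have hgcomp : Computable fun p : ℕ × ℕ => g p.1 p.2 := by
    have hst : Computable fun q : (ℕ × ℕ) × (ℕ × ℕ) => step q.1.1 q.2.1 q.2.2 := by
      have h1 : Computable fun x : (ℕ × Code) × ℕ => (Code.evaln x.1.1 x.1.2 x.2) :=
        Code.primrec_evaln.to_comp
      have h2 : Computable fun q : (ℕ × ℕ) × (ℕ × ℕ) => Denumerable.ofNat Code q.1.1 :=
        (Computable.ofNat Code).comp (by fun_prop)
      have h3 : Computable fun q : (ℕ × ℕ) × (ℕ × ℕ) =>
          Code.evaln q.2.1 (Denumerable.ofNat Code q.1.1) q.1.1 :=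
        h1.comp (((by fun_prop : Computable fun q : (ℕ × ℕ) × (ℕ × ℕ) => q.2.1).pair h2).pair
          (by fun_prop))
      have h4 : Computable₂ fun (q : (ℕ × ℕ) × (ℕ × ℕ)) (v : ℕ) =>
          if (q.2.2, EL.map fun d => Ws v q.2.1 d) ∈ G then q.2.2 + 1 else q.2.2 := by
        refine RE.cite (p := fun r : ((ℕ × ℕ) × (ℕ × ℕ)) × ℕ =>
          (r.1.2.2, EL.map fun d => Ws r.2 r.1.2.1 d) ∈ G) (RE.cp_mem ?_ (Computable.const G))
          (by fun_prop) (by fun_prop)
        exact (by fun_prop : Computable fun r : ((ℕ × ℕ) × (ℕ × ℕ)) × ℕ => r.1.2.2).pair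
          ((comp_bits EL).comp (g := fun r : ((ℕ × ℕ) × (ℕ × ℕ)) × ℕ => (r.2, r.1.2.1))
            (by fun_prop))
      refine (Computable.option_casesOn h3 (by fun_prop :
        Computable fun q : (ℕ × ℕ) × (ℕ × ℕ) => q.2.2) h4).of_eq fun q => ?_
      simp only [step]
      cases Code.evaln q.2.1 (Denumerable.ofNat Code q.1.1) q.1.1 <;> rfl
    have h5 := Computable.nat_rec (f := fun p : ℕ × ℕ => p.2) (g := fun _ : ℕ × ℕ => (0 : ℕ))
      (h := fun (p : ℕ × ℕ) (y : ℕ × ℕ) => step p.1 y.1 y.2) (by fun_prop)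
      (Computable.const 0) hst
    exact h5
  have hgmono : ∀ x s, g x s ≤ g x (s + 1) := by
    intro x s
    rw [hgs]
    simp only [step]
    rcases Code.evaln s (Denumerable.ofNat Code x) x with _ | v
    · exact le_rfl
    · simp only [Option.elim]
      split_ifs
      · exact Nat.le_succ _
      · exact le_rfl
  have hgmono' : ∀ x, Monotone (g x) := fun x => monotone_nat_of_le_succ (hgmono x)
  have hgle : ∀ x s, g x s ≤ 4 := by
    intro x s
    induction s with
    | zero => rw [hg0]; omega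
    | succ s ih =>
      rw [hgs]
      simp only [step]
      rcases Code.evaln s (Denumerable.ofNat Code x) x with _ | v
      · exact ih
      · simp only [Option.elim]
        split_ifs with hc
        · have := ((hG _ _ _).1 hc).1
          omega
        · exact ih
  -- the index
  obtain ⟨u, hu, hu'⟩ := smn (P := fun x y => ∃ s, ∃ i, i < 5 ∧ ∃ j, j < 5 ∧
      max i (g x s) = max j (g x s) ∧ y = Nat.pair (Nat.pair 0 i) (Nat.pair 0 j)) (by
    refine RE.exN (p := fun (p : ℕ × ℕ) s => ∃ i, i < 5 ∧ ∃ j, j < 5 ∧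
      max i (g p.1 s) = max j (g p.1 s) ∧ p.2 = Nat.pair (Nat.pair 0 i) (Nat.pair 0 j)) ?_
    refine RE.exN (p := fun (p : (ℕ × ℕ) × ℕ) i => i < 5 ∧ ∃ j, j < 5 ∧
      max i (g p.1.1 p.2) = max j (g p.1.1 p.2) ∧
      p.1.2 = Nat.pair (Nat.pair 0 i) (Nat.pair 0 j)) ?_
    refine RE.and (RE.lt (by fun_prop) (by fun_prop)) ?_
    refine RE.exN (p := fun (p : ((ℕ × ℕ) × ℕ) × ℕ) j => j < 5 ∧
      max p.2 (g p.1.1.1 p.1.2) = max j (g p.1.1.1 p.1.2) ∧
      p.1.1.2 = Nat.pair (Nat.pair 0 p.2) (Nat.pair 0 j)) ?_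
    have h6 : Computable fun p : (((ℕ × ℕ) × ℕ) × ℕ) × ℕ => g p.1.1.1.1 p.1.1.2 :=
      hgcomp.comp (g := fun p : (((ℕ × ℕ) × ℕ) × ℕ) × ℕ => (p.1.1.1.1, p.1.1.2)) (by fun_prop)
    refine RE.and (RE.lt (by fun_prop) (by fun_prop)) (RE.and (RE.eq ?_ ?_)
      (RE.eq (by fun_prop) (by fun_prop)))
    · exact RE.cmax (by fun_prop) h6
    · exact RE.cmax (by fun_prop) h6)
  have hWu : ∀ x S0, (∀ s, S0 ≤ s → g x s = g x S0) → W (u x) = Ker hN0 (gf (g x S0)) := by
    intro x S0 hS0
    ext y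
    rw [hu']
    constructor
    · rintro ⟨s, i, hi, j, hj, h1, rfl⟩
      refine ⟨Term.var ⟨i, hi⟩, Term.var ⟨j, hj⟩, ?_, rfl⟩
      show max i (g x S0) = max j (g x S0)
      rcases le_total S0 s with h2 | h2
      · rw [← hS0 s h2]; exact h1
      · have := hgmono' x h2
        omega
    · rintro ⟨s, t, hst, rfl⟩
      rcases term_cases hN0 s with ⟨v, rfl⟩ | ⟨i, hi, rfl⟩
      · rcases term_cases hN0 t with ⟨w, rfl⟩ | ⟨i, hi, rfl⟩
        · exact ⟨S0, v.1, v.2, w.1, w.2, hst, rfl⟩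
        · simp [N0] at hi
      · simp [N0] at hi
  -- a code for `h ∘ u`
  obtain ⟨c, hc⟩ := Code.exists_code.1 (Partrec.nat_iff.1 (hh.comp hu).partrec)
  let x0 := Encodable.encode c
  have hx0 : ∀ y, (Denumerable.ofNat Code x0).eval y = Part.some (h (u y)) := by
    intro y
    rw [Denumerable.ofNat_encode, hc]
    rfl
  let v := h (u x0)
  have hev : ∀ s w, Code.evaln s (Denumerable.ofNat Code x0) x0 = some w → w = v := by
    intro s w hw
    have h1 := Code.evaln_sound (Option.mem_def.2 hw)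
    rw [hx0] at h1
    exact Part.mem_some_iff.1 h1
  obtain ⟨s1, hs1⟩ : ∃ s1, ∀ s, s1 ≤ s → Code.evaln s (Denumerable.ofNat Code x0) x0 = some v := by
    have h1 : v ∈ (Denumerable.ofNat Code x0).eval x0 := by
      rw [hx0]; exact Part.mem_some _
    obtain ⟨k, hk⟩ := Code.evaln_complete.1 h1
    exact ⟨k, fun s hs => Option.mem_def.1 (Code.evaln_mono hs hk)⟩
  -- eventually constant
  obtain ⟨S0, hS0⟩ : ∃ S0, ∀ s, S0 ≤ s → g x0 s = g x0 S0 := by
    have hbd : BddAbove (Set.range (g x0)) := ⟨4, by rintro _ ⟨s, rfl⟩; exact hgle x0 s⟩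
    have hmem := Nat.sSup_mem (Set.range_nonempty (g x0)) hbd
    obtain ⟨S0, hS0⟩ := hmem
    refine ⟨S0, fun s hs => le_antisymm ?_ (hgmono' x0 hs)⟩
    rw [hS0]
    exact le_csSup hbd ⟨s, rfl⟩
  -- the final type
  have hfinal : IsT (g x0 S0) (W v) := by
    have h1 : isoRel ℬ 5 (u x0) (b (g x0 S0)) := by
      unfold isoRel
      rw [hWu x0 S0 hS0, hb]
      exact ⟨Equiv.refl _, fun f xs => rfl⟩
    exact (hred _ _).1 h1
  -- stages
  let Sv : ℕ → Set ℕ := fun s => {x | Ws v s x = true}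
  have hSvmono : ∀ s, Sv s ⊆ Sv (s + 1) := fun s x hx => Ws_mono (Nat.le_succ s) hx
  have hSvW : ∀ s, Sv s ⊆ W v := fun s x hx => (mem_W_iff v x).2 ⟨s, hx⟩
  obtain ⟨s2, hs2⟩ : ∃ s2, ∀ s, s2 ≤ s → ∀ x ∈ EL, x ∈ W v → x ∈ Sv s := by
    have h1 : ∀ L : List ℕ, ∃ s2, ∀ s, s2 ≤ s → ∀ x ∈ L, x ∈ W v → x ∈ Sv s := by
      intro L
      induction L with
      | nil => exact ⟨0, fun s _ x hx => absurd hx (by simp)⟩
      | cons d L ih =>
        obtain ⟨s2, hs2⟩ := ih
        by_cases hd : d ∈ W v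
        · obtain ⟨s3, hs3⟩ := (mem_W_iff v d).1 hd
          refine ⟨max s2 s3, fun s hs x hx hxW => ?_⟩
          rcases List.mem_cons.1 hx with rfl | hx
          · exact Ws_mono ((le_max_right _ _).trans hs) hs3
          · exact hs2 s ((le_max_left _ _).trans hs) x hx hxW
        · refine ⟨s2, fun s hs x hx hxW => ?_⟩
          rcases List.mem_cons.1 hx with rfl | hx
          · exact absurd hxW hd
          · exact hs2 s hs x hx hxW
    exact h1 EL
  have hlate : ∀ s, s2 ≤ s → ∀ a c, Cong (cVar N3 hN3) (Fin 1) (Sv s) a c ↔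
      Cong (cVar N3 hN3) (Fin 1) (W v) a c := by
    intro s hs a c
    rw [cong_inter EL hEL, cong_inter EL hEL (W v)]
    have : {x | x ∈ EL ∧ x ∈ Sv s} = {x | x ∈ EL ∧ x ∈ W v} := by
      ext x
      constructor
      · rintro ⟨h1, h2⟩
        exact ⟨h1, hSvW s h2⟩
      · rintro ⟨h1, h2⟩
        exact ⟨h1, hs2 s hs x h1 h2⟩
    rw [this]
  have hTlate : ∀ s, s2 ≤ s → IsT (g x0 S0) (Sv s) := fun s hs =>
    hAtrans (iso_of_cong hN3 (hlate s hs)) hfinal
  have hfour : g x0 S0 = 4 := by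
    by_contra hne
    have hlt : g x0 S0 < 4 := lt_of_le_of_ne (hgle x0 S0) hne
    let s := max S0 (max s1 s2)
    have h1 : g x0 s = g x0 S0 := hS0 s (le_max_left _ _)
    have h2 : g x0 (s + 1) = g x0 S0 := hS0 (s + 1) ((le_max_left _ _).trans (Nat.le_succ _))
    rw [hgs, h1] at h2
    simp only [step] at h2
    rw [hs1 s ((le_max_left _ _).trans (le_max_right _ _))] at h2
    simp only [Option.elim] at h2
    rw [if_pos ((hG _ _ _).2 ⟨hlt, hTlate s ((le_max_right _ _).trans (le_max_right _ _))⟩)] at h2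
    omega
  -- the potential
  have hinv : ∀ s, cQ hN3 (Fin 1) (Sv s) + g x0 s ≤ 5 ∧
      (cQ hN3 (Fin 1) (Sv s) + g x0 s = 5 → 1 ≤ g x0 s ∧ IsT (g x0 s - 1) (Sv s)) := by
    intro s
    induction s with
    | zero =>
      have h1 : cQ hN3 (Fin 1) (Sv 0) ≤ 4 := by
        -- four terms
        let Q := Quotient (congSetoid (cVar N3 hN3) (Fin 1) (Sv 0))
        let F : Fin 4 → Q := fun i => if h : i.1 < 3 then
          Quotient.mk _ (con hN3 i.1 (by simp [N3, h])) else Quotient.mk _ (Term.var 0)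
        have hF : Function.Surjective F := by
          intro q
          obtain ⟨t, rfl⟩ := Quotient.exists_rep q
          rcases term_cases hN3 t with ⟨w, rfl⟩ | ⟨i, hi, rfl⟩
          · refine ⟨3, ?_⟩
            have : w = 0 := Subsingleton.elim _ _
            simp [F, this]
          · have hi3 : i < 3 := by simpa [N3] using hi
            refine ⟨⟨i, by omega⟩, ?_⟩
            simp [F, hi3]
        have := Nat.card_le_card_of_surjective F hF
        rwa [Nat.card_fin] at this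
      rw [hg0]
      exact ⟨by omega, fun h => by omega⟩
    | succ s ih =>
      obtain ⟨ih1, ih2⟩ := ih
      -- first the jump at stage `s`
      have hmid : cQ hN3 (Fin 1) (Sv s) + g x0 (s + 1) ≤ 5 ∧
          (cQ hN3 (Fin 1) (Sv s) + g x0 (s + 1) = 5 → 1 ≤ g x0 (s + 1) ∧
            IsT (g x0 (s + 1) - 1) (Sv s)) := by
        rw [hgs]
        simp only [step]
        rcases hev' : Code.evaln s (Denumerable.ofNat Code x0) x0 with _ | w
        · exact ⟨ih1, ih2⟩
        · simp only [Option.elim]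
          have hw := hev s w hev'
          subst hw
          split_ifs with hcond
          · obtain ⟨hk, hT⟩ := (hG _ _ _).1 hcond
            have hT' : IsT (g x0 s) (Sv s) := hT
            have h1 : cQ hN3 (Fin 1) (Sv s) + g x0 s ≠ 5 := by
              intro h5
              obtain ⟨h6, h7⟩ := ih2 h5
              have := hTne _ _ (hgle x0 s) (by have := hgle x0 s; omega) _ hT' h7
              omega
            refine ⟨by omega, fun h2 => ⟨by omega, ?_⟩⟩
            rw [Nat.add_sub_cancel]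
            exact hT'
          · exact ⟨ih1, ih2⟩
      obtain ⟨hm1, hm2⟩ := hmid
      rcases cQ_mono hN3 fin3 (V := Fin 1) (S := Sv s) (S' := Sv (s + 1))
        (fun a c hac => cong_mono hN3 (hSvmono s) hac) with hlt | heq
      · exact ⟨by omega, fun h5 => by omega⟩
      · have h1 := iso_of_cong hN3 heq
        have h2 := cQ_iso hN3 h1
        rw [← h2]
        exact ⟨hm1, fun h5 => ⟨(hm2 h5).1, hAtrans (hAsymm h1) (hm2 h5).2⟩⟩
  -- the contradiction
  let s := max S0 s2
  have h1 := hinv s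
  have h2 : g x0 s = 4 := (hS0 s (le_max_left _ _)).trans hfour
  have h3 := cQ_pos hN3 fin3 (0 : Fin 1) (Sv s)
  rw [h2] at h1
  have h4 : cQ hN3 (Fin 1) (Sv s) + 4 = 5 := by omega
  have h5 := (h1.2 h4).2
  have h6 := hTlate s (le_max_right _ _)
  rw [hfour] at h6
  have := hTne _ _ (by omega) le_rfl _ h5 h6
  omega

end Pool.Agent.Q203.CEA
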