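import Pool.Agent.Q203.CEA.Const

set_option autoImplicit false

open Pool.Agent.Helper446

namespace Pool.Agent.Q203.CEA

/-- all natural numbers are constant symbols -/
def NT : ℕ → Bool := fun _ => true
theorem hNT : Computable NT := Computable.const true

/-- the variety of sets with infinitely many constants -/
def 𝒞 : Variety := cVar NT hNT

theorem iso_le_eq (n : ℕ) : CRed (isoRel 𝒞 n) eqCE := by
  obtain ⟨f, hf, hf'⟩ := smn (P := fun e x => Th NT (Nat.pair n e) x)
    (RE.comp (f := fun p : ℕ × ℕ => (Nat.pair n p.1, p.2)) (re_Th hNT) (by fun_prop))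
  refine ⟨f, hf, fun e e' => ?_⟩
  unfold isoRel
  rw [show 𝒞 = cVar NT hNT from rfl, iso_iff_Th hNT]
  unfold eqCE
  rw [Set.ext_iff]
  simp only [hf']

theorem isoFG_le_eq : CRed (isoRelFG 𝒞) eqCE := by
  obtain ⟨f, hf, hf'⟩ := smn (P := fun e x => Th NT e x) (re_Th hNT)
  refine ⟨f, hf, fun e e' => ?_⟩
  unfold isoRelFG
  rw [show 𝒞 = cVar NT hNT from rfl, iso_iff_Th hNT, Nat.pair_unpair, Nat.pair_unpair]
  unfold eqCE
  rw [Set.ext_iff]
  simp only [hf']

/-- coding a c.e. set into equalities between constants -/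
theorem exists_coding (n : ℕ) : ∃ g : ℕ → ℕ, Computable g ∧ ∀ e e',
    AlgIso (present 𝒞 (Fin n) (W (g e))) (present 𝒞 (Fin n) (W (g e'))) ↔ eqCE e e' := by
  classical
  obtain ⟨g, hg, hg'⟩ := smn (P := fun e x => (∃ v, v < n ∧ x = Nat.pair (Nat.pair 0 v)
      (Nat.pair 1 0)) ∨ (∃ i, i ∈ W e ∧ x = Nat.pair (Nat.pair (2 * i + 2) 0)
      (Nat.pair (2 * i + 3) 0))) (by
    refine RE.or ?_ ?_
    · refine RE.exN (p := fun (p : ℕ × ℕ) v => v < n ∧ p.2 = Nat.pair (Nat.pair 0 v)
        (Nat.pair 1 0)) ?_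
      exact RE.and (RE.lt (by fun_prop) (by fun_prop)) (RE.eq (by fun_prop) (by fun_prop))
    · refine RE.exN (p := fun (p : ℕ × ℕ) i => i ∈ W p.1 ∧
        p.2 = Nat.pair (Nat.pair (2 * i + 2) 0) (Nat.pair (2 * i + 3) 0)) ?_
      exact RE.and (re_mem_W (by fun_prop) (by fun_prop)) (RE.eq (by fun_prop) (by fun_prop)))
  refine ⟨g, hg, fun e e' => ?_⟩
  have key : ∀ e i, Cong (cVar NT hNT) (Fin n) (W (g e)) (con hNT (2 * i + 1) rfl)
      (con hNT (2 * i + 2) rfl) ↔ i ∈ W e := by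
    intro e i
    constructor
    · intro h
      let r : ℕ → ℕ := fun j => if ∃ i, j = 2 * i + 2 ∧ i ∈ W e then j - 1 else j
      let f : Term (cVar NT hNT).sig (Fin n) → ℕ := fun t => match t with
        | Term.var _ => 0
        | Term.app c _ => r c.1
      have h1 := cong_respect hNT f (S := W (g e)) (by
        intro s t hst
        rw [hg'] at hst
        rcases hst with ⟨v, hv, h2⟩ | ⟨i, hi, h2⟩
        · have h3 : eqCode s t = eqCode (Term.var ⟨v, hv⟩ : Term (cVar NT hNT).sig (Fin n))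
            (con hNT 0 rfl) := h2
          obtain ⟨rfl, rfl⟩ := eqCode_inj hNT h3
          show 0 = r 0
          simp [r]
        · have h3 : eqCode s t = eqCode (con hNT (2 * i + 1) rfl : Term (cVar NT hNT).sig (Fin n))
            (con hNT (2 * i + 2) rfl) := h2
          obtain ⟨rfl, rfl⟩ := eqCode_inj hNT h3
          show r (2 * i + 1) = r (2 * i + 2)
          have h4 : ¬ ∃ i', 2 * i + 1 = 2 * i' + 2 ∧ i' ∈ W e := by
            rintro ⟨i', h5, -⟩
            omega
          have h5 : ∃ i', 2 * i + 2 = 2 * i' + 2 ∧ i' ∈ W e := ⟨i, rfl, hi⟩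
          simp only [r, h4, h5, if_true, if_false]
          omega) h
      have h1' : r (2 * i + 1) = r (2 * i + 2) := h1
      have h4 : ¬ ∃ i', 2 * i + 1 = 2 * i' + 2 ∧ i' ∈ W e := by
        rintro ⟨i', h5, -⟩
        omega
      by_contra hi
      have h5 : ¬ ∃ i', 2 * i + 2 = 2 * i' + 2 ∧ i' ∈ W e := by
        rintro ⟨i', h6, h7⟩
        have : i = i' := by omega
        exact hi (this ▸ h7)
      simp only [r, h4, h5, if_false] at h1'
      omega
    · intro hi
      refine Cong.rel _ _ ?_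
      rw [hg']
      exact Or.inr ⟨i, hi, rfl⟩
  constructor
  · intro h
    rw [show 𝒞 = cVar NT hNT from rfl, algIso_iff hNT] at h
    ext i
    rw [← key, ← key]
    exact h.1 _ _ _ _
  · intro h
    have : W (g e) = W (g e') := by
      ext x
      rw [hg', hg', h]
    rw [this]
    exact ⟨Equiv.refl _, fun f xs => rfl⟩

theorem eq_le_iso (n : ℕ) : CRed eqCE (isoRel 𝒞 n) := by
  obtain ⟨g, hg, hg'⟩ := exists_coding n
  exact ⟨g, hg, fun e e' => (hg' e e').symm⟩

theorem eq_le_isoFG : CRed eqCE (isoRelFG 𝒞) := by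
  obtain ⟨g, hg, hg'⟩ := exists_coding 1
  refine ⟨fun e => Nat.pair 1 (g e), ?_, fun e e' => ?_⟩
  · exact RE.cnatpair (Computable.const 1) hg
  · unfold isoRelFG
    rw [Nat.unpair_pair, Nat.unpair_pair]
    exact (hg' e e').symm

theorem nontriv : 𝒞.Nontriv := by
  refine ⟨⟨Bool, fun _ _ => false⟩, ?_, true, false, by decide⟩
  intro p hp
  exact absurd hp (Set.notMem_empty p)

/-- the free algebras fail the ascending chain condition -/
theorem not_acc (n : ℕ) : ∃ e, ¬ ACC (present 𝒞 (Fin n) (W e)) := by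
  obtain ⟨e, he⟩ := exists_index (S := ∅) (by simpa using RE.const (α := ℕ) False)
  refine ⟨e, fun h => h ?_⟩
  let s := congSetoid (cVar NT hNT) (Fin n) (W e)
  let c : ℕ → Quotient s := fun i => Quotient.mk s (con hNT i rfl)
  have hc : Function.Injective c := by
    intro i j hij
    have h1 : Cong (cVar NT hNT) (Fin n) (W e) (con hNT i rfl) (con hNT j rfl) :=
      (Quotient.eq (r := s)).1 hij
    have h2 := cong_respect hNT (S := W e) (fun t => t.code) (by
      intro s t hst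
      rw [he] at hst
      exact absurd hst (Set.notMem_empty _)) h1
    have h3 : (con hNT i rfl : Term (cVar NT hNT).sig (Fin n)).code =
        (con hNT j rfl : Term (cVar NT hNT).sig (Fin n)).code := h2
    rw [code_con, code_con, Nat.pair_eq_pair] at h3
    omega
  refine ⟨fun k a b => a = b ∨ ((∃ i, i ≤ k ∧ a = c i) ∧ ∃ j, j ≤ k ∧ b = c j), ?_, ?_⟩
  · intro k
    refine ⟨⟨fun a => Or.inl rfl, ?_, ?_⟩, ?_⟩
    · rintro a b (h | ⟨h1, h2⟩)
      · exact Or.inl h.symm
      · exact Or.inr ⟨h2, h1⟩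
    · rintro a b d (rfl | ⟨h1, h2⟩) (rfl | ⟨h3, h4⟩)
      · exact Or.inl rfl
      · exact Or.inr ⟨h3, h4⟩
      · exact Or.inr ⟨h1, h2⟩
      · exact Or.inr ⟨h1, h4⟩
    · rintro ⟨i, hi⟩ xs ys _
      left
      exact (present_op hNT (W e) i hi xs).trans (present_op hNT (W e) i hi ys).symm
  · intro k
    constructor
    · rintro a b (h | ⟨⟨i, hi, h1⟩, ⟨j, hj, h2⟩⟩)
      · exact Or.inl h
      · exact Or.inr ⟨⟨i, by omega, h1⟩, ⟨j, by omega, h2⟩⟩
    · refine ⟨c (k + 1), c 0, Or.inr ⟨⟨k + 1, le_rfl, rfl⟩, ⟨0, by omega, rfl⟩⟩, ?_⟩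
      rintro (h | ⟨⟨i, hi, h1⟩, -⟩)
      · have := hc h
        omega
      · have := hc h1
        omega

end Pool.Agent.Q203.CEA
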